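import Pool.Agent.Helper25_AEU3.Img3

/-!
helper25, AEU (MP_5b0138_an), Part III, IMG: the estimate for one image kernel.
-/

set_option autoImplicit false

namespace Pool.Agent.AEU.H12F.H25

open MeasureTheory Filter Topology Real Set Pool.Agent.AEU.H12

noncomputable def Rc (c : ℝ) : ℝ := 32 * c * (√(4 * π * c))⁻¹

theorem Rc_nonneg {c : ℝ} (hc : 0 < c) : 0 ≤ Rc c := by unfold Rc; positivity

theorem RR_small {c κ δ E lam : ℝ} (hc : 0 < c) (hκ : 1 ≤ κ) (hδ : 0 < δ) (h0 : 0 ≤ lam)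
    (hlam : lam ≤ κ) (hc8 : 8 * c ≤ δ) (hcE : E ≤ δ ^ 2 / (16 * c)) :
    RR (c / κ) δ lam ≤ Rc c * rexp (-(κ * E)) := by
  have hκ0 : 0 < κ := by linarith
  have ha : 0 < c / κ := by positivity
  have h1 : lam ≤ δ / (8 * (c / κ)) := by
    rw [le_div_iff₀ (by positivity)]
    have : lam * (8 * (c / κ)) ≤ κ * (8 * (c / κ)) := by gcongr
    have e : κ * (8 * (c / κ)) = 8 * c := by field_simp
    linarith
  refine (RR1 ha hδ h0 h1).trans ?_
  have h2 : 32 * (c / κ) * (√(4 * π * (c / κ)))⁻¹ ≤ Rc c := by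
    have h3 := sqrt_bound hc hκ
    calc 32 * (c / κ) * (√(4 * π * (c / κ)))⁻¹ ≤ 32 * (c / κ) * (κ * (√(4 * π * c))⁻¹) := by gcongr
      _ = Rc c := by unfold Rc; field_simp
  have h4 : rexp (-(δ ^ 2 / (16 * (c / κ)))) ≤ rexp (-(κ * E)) := by
    apply exp_le_exp.2
    have e : δ ^ 2 / (16 * (c / κ)) = κ * (δ ^ 2 / (16 * c)) := by field_simp
    rw [e]
    have := mul_le_mul_of_nonneg_left hcE hκ0.le
    linarith
  exact mul_le_mul h2 h4 (exp_pos _).le (Rc_nonneg hc)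

/-- constant in the estimate -/
noncomputable def Ci (φ c δ β1 β2 : ℝ) : ℝ :=
  2 * δ / c * (CE / 2 * (1 / (2 * cos φ * sin β1) + 1 / (2 * cos φ * sin β2)))
    + 2 * π / (c * cos φ) * Rc c + π / (2 * c * cos φ) * Rc c

theorem TT_mono {κ φ P P' q q' μ ζ1 ζ2 β1 β2 : ℝ} (hκ : 0 < κ) (hφ : 0 < cos φ)
    (hβ1 : 0 < β1) (hβ1' : β1 < π / 2) (hβ2 : 0 < β2) (hβ2' : β2 < π / 2) (hP : P ≤ P')
    (hq : |q'| ≤ |q|) : TT κ φ P' q' μ ζ1 ζ2 β1 β2 ≤ TT κ φ P q μ ζ1 ζ2 β1 β2 := by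
  have hsb1 : 0 < sin β1 := sin_pos_of_pos_of_lt_pi hβ1 (by linarith [pi_pos])
  have hsb2 : 0 < sin β2 := sin_pos_of_pos_of_lt_pi hβ2 (by linarith [pi_pos])
  have hcb1 : 0 < cos β1 := cos_pos_of_mem_Ioo ⟨by linarith [pi_pos], hβ1'⟩
  have hcb2 : 0 < cos β2 := cos_pos_of_mem_Ioo ⟨by linarith [pi_pos], hβ2'⟩
  have hCE := CE_nonneg
  unfold TT
  gcongr

theorem os {κ φ d c δ ζ1 ζ2 β1 β2 E : ℝ} (hδ : 0 < δ) (hδd : δ < d) (hc : 0 < c) (hκ : 1 ≤ κ)
    (hφ : 0 < cos φ) (hβ1 : 0 < β1) (hβ1' : β1 < π / 2) (hβ2 : 0 < β2) (hβ2' : β2 < π / 2)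
    (hz1 : δ ≤ ζ1) (hz2 : δ ≤ ζ2)
    (hm1 : 1 ≤ κ * ((cos φ * (2 * d - 2 * δ) - δ) * cos β1 - 6 * δ - δ))
    (hm2 : 1 ≤ κ * ((cos φ * (2 * d - 2 * δ) - δ) * cos β2 - 6 * δ - δ))
    (hPm : δ ≤ cos φ * (2 * d - 2 * δ))
    (hE1 : E ≤ (cos φ * (2 * d - 2 * δ) - δ) * cos β1 - 6 * δ - δ + 2 * cos φ * sin β1 * (ζ1 - δ))
    (hE2 : E ≤ (cos φ * (2 * d - 2 * δ) - δ) * cos β2 - 6 * δ - δ + 2 * cos φ * sin β2 * (ζ2 - δ))
    (hc8 : 8 * c ≤ δ) (hcE : E ≤ δ ^ 2 / (16 * c)) :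
    |κ / c * rexp (-(κ * c)) * (∫ z in Iq (d - 2 * δ) δ ×ˢ Jw ζ1 ζ2, K4 κ φ d (c / κ) (d - 2 * δ) z)
        - π * rexp (-(2 * d * κ * cos φ))| ≤ Ci φ c δ β1 β2 * rexp (-(κ * E)) := by
  have hκ0 : 0 < κ := by linarith
  have ha : 0 < c / κ := by positivity
  have hc1 := Real.cos_le_one φ
  have hsb1 : 0 < sin β1 := sin_pos_of_pos_of_lt_pi hβ1 (by linarith [pi_pos])
  have hsb2 : 0 < sin β2 := sin_pos_of_pos_of_lt_pi hβ2 (by linarith [pi_pos])
  have hR0 := Rc_nonneg hc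
  have hCE := CE_nonneg
  obtain ⟨hIW, hIWi⟩ := IW_eq (ζ1 := ζ1) (ζ2 := ζ2) hκ0 ha hφ hδd
  have hR1 := RR_small (lam := κ) hc hκ hδ hκ0.le le_rfl hc8 hcE
  have hR2 := RR_small (lam := κ * cos φ) hc hκ hδ (by positivity)
    (by nlinarith only [hκ0, hc1]) hc8 hcE
  set X0 := d - 2 * δ with hX0
  set a := c / κ with hadef
  set B : ℝ := π / (2 * κ * cos φ) with hB
  have hB0 : 0 < B := by positivity
  set S : ℝ := rexp (a * (κ * sin φ) ^ 2) with hS
  have hS0 : 0 < S := exp_pos _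
  set Tm : ℝ := TT κ φ (cos φ * (2 * d - 2 * δ)) (6 * δ) δ ζ1 ζ2 β1 β2 with hTm
  have hTm0 : 0 ≤ Tm := TT_nonneg hκ0 hφ hβ1 hβ1' hβ2 hβ2'
  set Err : ℝ := Tm + B * (2 / δ * RR a δ κ) with hErr
  have hRR0 := RR_nonneg a δ κ
  have hErr0 : 0 ≤ Err := by positivity
  -- pointwise
  have hpt : ∀ q ∈ Iq X0 δ, |HJ κ φ (Pf φ d q) (qf φ d q) a (Jw ζ1 ζ2)
      - B * rexp (-(κ * Pf φ d q)) * S| ≤ Err := by
    intro q hq
    have h1 := Pf_ge hφ hq
    have h2 := qf_le (φ := φ) hq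
    have h2' : |qf φ d q| ≤ |6 * δ| := by rwa [abs_of_pos (by positivity : 0 < 6 * δ)]
    have hcb1 : 0 < cos β1 := cos_pos_of_mem_Ioo ⟨by linarith [pi_pos], hβ1'⟩
    have hcb2 : 0 < cos β2 := cos_pos_of_mem_Ioo ⟨by linarith [pi_pos], hβ2'⟩
    refine HJ_est hκ0 ha hφ hδ (hPm.trans h1) (Jw_meas ζ1 ζ2) hTm0 fun w hw => ?_
    refine (tail_est hκ0 hφ (hPm.trans h1) hβ1 hβ1' hβ2 hβ2' hz1 hz2 ?_ ?_ hw).trans
      (TT_mono hκ0 hφ hβ1 hβ1' hβ2 hβ2' h1 h2')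
    · refine hm1.trans (mul_le_mul_of_nonneg_left ?_ hκ0.le)
      have := mul_le_mul_of_nonneg_right (sub_le_sub_right h1 δ) hcb1.le
      linarith
    · refine hm2.trans (mul_le_mul_of_nonneg_left ?_ hκ0.le)
      have := mul_le_mul_of_nonneg_right (sub_le_sub_right h1 δ) hcb2.le
      linarith
  -- the main term
  have hmain : ∫ q in Iq X0 δ, g1 a (q.1 - q.2) * (chi X0 q.2 - chi X0 q.1) *
      (B * rexp (-(κ * Pf φ d q)) * S)
      = B * rexp (-(2 * d * κ * cos φ)) * S * MM a X0 δ (κ * cos φ) := by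
    rw [← MM_prod, ← integral_const_mul]
    refine integral_congr_ae (Eventually.of_forall fun q => ?_)
    simp only
    have e1 : rexp (-(κ * Pf φ d q)) = rexp (-(2 * d * κ * cos φ)) *
        rexp (-((q.1 - q.2) * (κ * cos φ))) := by
      rw [← Real.exp_add]
      congr 1
      unfold Pf
      ring
    rw [e1]
    ring
  obtain ⟨hgi, hg2⟩ := g1_sq (X0 := X0) ha hδ
  have hchm : Measurable fun q : ℝ × ℝ => chi X0 q.2 - chi X0 q.1 :=
    ((chi_meas X0).comp measurable_snd).sub ((chi_meas X0).comp measurable_fst)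
  have hgm : Measurable fun q : ℝ × ℝ => g1 a (q.1 - q.2) := (g1_meas a).comp (by fun_prop)
  have hPm' : Measurable fun q : ℝ × ℝ => rexp (-(κ * Pf φ d q)) := by
    unfold Pf
    fun_prop
  have hmi : IntegrableOn (fun q : ℝ × ℝ => g1 a (q.1 - q.2) * (chi X0 q.2 - chi X0 q.1) *
      (B * rexp (-(κ * Pf φ d q)) * S)) (Iq X0 δ) := by
    have h1 : IntegrableOn (fun q : ℝ × ℝ => g1 a (q.1 - q.2) * (B * S)) (Iq X0 δ) :=
      hgi.mul_const _
    refine h1.mono' ((hgm.mul hchm).mul ((hPm'.const_mul B).mul_const S)).aestronglyMeasurable ?_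
    rw [ae_restrict_iff' (Iq_meas X0 δ)]
    refine Eventually.of_forall fun q hq => ?_
    have h2 : 0 < Pf φ d q := lt_of_lt_of_le (lt_of_lt_of_le hδ hPm) (Pf_ge hφ hq)
    have h3 : rexp (-(κ * Pf φ d q)) ≤ 1 := Real.exp_le_one_iff.2 (by
      have := mul_pos hκ0 h2; linarith)
    rw [norm_mul, norm_mul, Real.norm_of_nonneg (g1_nonneg _ _), Real.norm_eq_abs,
      Real.norm_of_nonneg (by positivity)]
    have h4 := chi_sub_le X0 q.2 q.1
    have h5 := g1_nonneg a (q.1 - q.2)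
    calc g1 a (q.1 - q.2) * |chi X0 q.2 - chi X0 q.1| * (B * rexp (-(κ * Pf φ d q)) * S)
        ≤ g1 a (q.1 - q.2) * 1 * (B * 1 * S) := by gcongr
      _ = _ := by ring
  have hdiff : |(∫ q in Iq X0 δ, g1 a (q.1 - q.2) * (chi X0 q.2 - chi X0 q.1) *
      HJ κ φ (Pf φ d q) (qf φ d q) a (Jw ζ1 ζ2))
      - ∫ q in Iq X0 δ, g1 a (q.1 - q.2) * (chi X0 q.2 - chi X0 q.1) *
      (B * rexp (-(κ * Pf φ d q)) * S)| ≤ 2 * δ * Err := by
    rw [← integral_sub hIWi hmi]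
    have hn := norm_integral_le_integral_norm (μ := (volume.restrict (Iq X0 δ))) (fun q : ℝ × ℝ =>
      g1 a (q.1 - q.2) * (chi X0 q.2 - chi X0 q.1) * HJ κ φ (Pf φ d q) (qf φ d q) a (Jw ζ1 ζ2) -
        g1 a (q.1 - q.2) * (chi X0 q.2 - chi X0 q.1) * (B * rexp (-(κ * Pf φ d q)) * S))
    rw [Real.norm_eq_abs] at hn
    refine hn.trans ?_
    calc _ ≤ ∫ q in Iq X0 δ, g1 a (q.1 - q.2) * Err := by
          refine setIntegral_mono_on (hIWi.sub hmi).norm (hgi.mul_const _) (Iq_meas X0 δ)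
            fun q hq => ?_
          rw [← mul_sub, norm_mul, norm_mul, Real.norm_of_nonneg (g1_nonneg _ _),
            Real.norm_eq_abs, Real.norm_eq_abs]
          have h4 := chi_sub_le X0 q.2 q.1
          have h5 := g1_nonneg a (q.1 - q.2)
          have h6 := hpt q hq
          calc g1 a (q.1 - q.2) * |chi X0 q.2 - chi X0 q.1| * |HJ κ φ (Pf φ d q) (qf φ d q) a
                (Jw ζ1 ζ2) - B * rexp (-(κ * Pf φ d q)) * S|
              ≤ g1 a (q.1 - q.2) * 1 * Err := by gcongr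
            _ = _ := by ring
      _ = (∫ q in Iq X0 δ, g1 a (q.1 - q.2)) * Err := integral_mul_const _ _
      _ ≤ 2 * δ * Err := mul_le_mul_of_nonneg_right hg2 hErr0
  rw [hmain, ← hIW] at hdiff
  have hMM := MM_sub ha X0 δ (κ * cos φ)
  -- combine
  set I0 := ∫ z in Iq X0 δ ×ˢ Jw ζ1 ζ2, K4 κ φ d a X0 z with hI0
  set D := rexp (-(2 * d * κ * cos φ)) with hD
  have hD0 : 0 < D := exp_pos _
  have hD1 : D ≤ 1 := Real.exp_le_one_iff.2 (by
    have : 0 < 2 * d * κ * cos φ := by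
      have : 0 < d := by linarith
      positivity
    linarith)
  set W := κ / c * rexp (-(κ * c)) with hW
  have hW0 : 0 < W := by positivity
  have e0 : a * κ ^ 2 = c * κ := by rw [hadef]; field_simp
  have hexact : W * (B * D * S * (2 * a * (κ * cos φ) * rexp (a * (κ * cos φ) ^ 2))) = π * D := by
    have e1 : S * rexp (a * (κ * cos φ) ^ 2) = rexp (κ * c) := by
      rw [hS, ← Real.exp_add]
      congr 1
      have := Real.sin_sq_add_cos_sq φ
      calc a * (κ * sin φ) ^ 2 + a * (κ * cos φ) ^ 2 = a * κ ^ 2 * (sin φ ^ 2 + cos φ ^ 2) := by ring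
        _ = κ * c := by rw [this, e0]; ring
    have e2 : rexp (-(κ * c)) * rexp (κ * c) = 1 := by
      rw [← Real.exp_add, neg_add_cancel, Real.exp_zero]
    have e3 : κ / c * B * (2 * a * (κ * cos φ)) = π := by
      rw [hB, hadef]
      field_simp
    calc W * (B * D * S * (2 * a * (κ * cos φ) * rexp (a * (κ * cos φ) ^ 2)))
        = (κ / c * B * (2 * a * (κ * cos φ))) * D *
            (rexp (-(κ * c)) * (S * rexp (a * (κ * cos φ) ^ 2))) := by rw [hW]; ring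
      _ = π * D := by rw [e1, e2, e3, mul_one]
  have hsplit : W * I0 - π * D = W * (I0 - B * D * S * MM a X0 δ (κ * cos φ)) +
      W * (B * D * S * (MM a X0 δ (κ * cos φ) -
        2 * a * (κ * cos φ) * rexp (a * (κ * cos φ) ^ 2))) := by
    rw [← hexact]; ring
  rw [hsplit]
  refine (abs_add_le _ _).trans ?_
  have hab1 : |W * (I0 - B * D * S * MM a X0 δ (κ * cos φ))| =
      W * |I0 - B * D * S * MM a X0 δ (κ * cos φ)| := by
    rw [abs_mul W, abs_of_pos hW0]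
  have hab2 : |W * (B * D * S * (MM a X0 δ (κ * cos φ) -
        2 * a * (κ * cos φ) * rexp (a * (κ * cos φ) ^ 2)))| =
      W * (B * D * S * |MM a X0 δ (κ * cos φ) -
        2 * a * (κ * cos φ) * rexp (a * (κ * cos φ) ^ 2)|) := by
    have hBDS : 0 < B * D * S := by positivity
    rw [abs_mul W, abs_of_pos hW0, abs_mul (B * D * S), abs_of_pos hBDS]
  rw [hab1, hab2]
  have hWS : W * S ≤ κ / c := by
    have e1 : rexp (-(κ * c)) * S ≤ 1 := by
      rw [hS, ← Real.exp_add]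
      apply Real.exp_le_one_iff.2
      have h1 : sin φ ^ 2 ≤ 1 := Real.sin_sq_le_one φ
      have h2 : a * (κ * sin φ) ^ 2 = c * κ * sin φ ^ 2 := by
        calc a * (κ * sin φ) ^ 2 = a * κ ^ 2 * sin φ ^ 2 := by ring
          _ = _ := by rw [e0]
      rw [h2]
      have h3 : c * κ * sin φ ^ 2 ≤ c * κ * 1 := by gcongr
      linarith
    have h2 : 0 ≤ κ / c := by positivity
    calc W * S = κ / c * (rexp (-(κ * c)) * S) := by rw [hW]; ring
      _ ≤ κ / c * 1 := mul_le_mul_of_nonneg_left e1 h2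
      _ = κ / c := mul_one _
  have hWle : W ≤ κ / c := by
    have e1 : rexp (-(κ * c)) ≤ 1 := Real.exp_le_one_iff.2 (by
      have := mul_pos hκ0 hc; linarith)
    have h2 : 0 ≤ κ / c := by positivity
    calc W ≤ κ / c * 1 := mul_le_mul_of_nonneg_left e1 h2
      _ = κ / c := mul_one _
  set X := rexp (-(κ * E)) with hX
  have hX0' : 0 < X := exp_pos _
  have hT1 : κ * Tm ≤ CE / 2 * (1 / (2 * cos φ * sin β1) + 1 / (2 * cos φ * sin β2)) * X := by
    have h1 : rexp (-(κ * ((cos φ * (2 * d - 2 * δ) - δ) * cos β1 - |6 * δ| - δ))) *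
        rexp (-(2 * κ * cos φ * sin β1 * (ζ1 - δ))) ≤ X := by
      rw [← Real.exp_add, hX]
      apply exp_le_exp.2
      rw [abs_of_pos (by positivity : 0 < 6 * δ)]
      have := mul_le_mul_of_nonneg_left hE1 hκ0.le
      linarith only [this]
    have h2 : rexp (-(κ * ((cos φ * (2 * d - 2 * δ) - δ) * cos β2 - |6 * δ| - δ))) *
        rexp (-(2 * κ * cos φ * sin β2 * (ζ2 - δ))) ≤ X := by
      rw [← Real.exp_add, hX]
      apply exp_le_exp.2
      rw [abs_of_pos (by positivity : 0 < 6 * δ)]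
      have := mul_le_mul_of_nonneg_left hE2 hκ0.le
      linarith only [this]
    have e1 : κ * Tm = CE / 2 * (1 / (2 * cos φ * sin β1) *
        (rexp (-(κ * ((cos φ * (2 * d - 2 * δ) - δ) * cos β1 - |6 * δ| - δ))) *
          rexp (-(2 * κ * cos φ * sin β1 * (ζ1 - δ)))) + 1 / (2 * cos φ * sin β2) *
        (rexp (-(κ * ((cos φ * (2 * d - 2 * δ) - δ) * cos β2 - |6 * δ| - δ))) *
          rexp (-(2 * κ * cos φ * sin β2 * (ζ2 - δ))))) := by
      rw [hTm]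
      unfold TT
      field_simp
    rw [e1]
    have h3 : 0 ≤ 1 / (2 * cos φ * sin β1) := by positivity
    have h4 : 0 ≤ 1 / (2 * cos φ * sin β2) := by positivity
    have h5 := mul_le_mul_of_nonneg_left h1 h3
    have h6 := mul_le_mul_of_nonneg_left h2 h4
    have h7 : 0 ≤ CE / 2 := by positivity
    have h8 := mul_le_mul_of_nonneg_left (add_le_add h5 h6) h7
    linarith only [h8]
  have hpart1 : W * |I0 - B * D * S * MM a X0 δ (κ * cos φ)| ≤
      (2 * δ / c * (CE / 2 * (1 / (2 * cos φ * sin β1) + 1 / (2 * cos φ * sin β2)))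
        + 2 * π / (c * cos φ) * Rc c) * X := by
    have h1 : W * |I0 - B * D * S * MM a X0 δ (κ * cos φ)| ≤ κ / c * (2 * δ * Err) :=
      mul_le_mul hWle hdiff (abs_nonneg _) (by positivity)
    refine h1.trans ?_
    have h2 : κ / c * (2 * δ * Err) = 2 * δ / c * (κ * Tm) + 2 * π / (c * cos φ) * RR a δ κ := by
      rw [hErr, hB]
      field_simp
    rw [h2]
    have h3 : 2 * δ / c * (κ * Tm) ≤ 2 * δ / c * (CE / 2 * (1 / (2 * cos φ * sin β1) +
        1 / (2 * cos φ * sin β2)) * X) := mul_le_mul_of_nonneg_left hT1 (by positivity)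
    have h4 : 2 * π / (c * cos φ) * RR a δ κ ≤ 2 * π / (c * cos φ) * (Rc c * X) :=
      mul_le_mul_of_nonneg_left hR1 (by positivity)
    linarith only [h3, h4]
  have hpart2 : W * (B * D * S * |MM a X0 δ (κ * cos φ) -
      2 * a * (κ * cos φ) * rexp (a * (κ * cos φ) ^ 2)|) ≤ π / (2 * c * cos φ) * Rc c * X := by
    have h1 : |MM a X0 δ (κ * cos φ) - 2 * a * (κ * cos φ) * rexp (a * (κ * cos φ) ^ 2)| ≤
        Rc c * X := hMM.trans hR2
    have h2 : W * (B * D * S * |MM a X0 δ (κ * cos φ) -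
        2 * a * (κ * cos φ) * rexp (a * (κ * cos φ) ^ 2)|) ≤ κ / c * (B * 1 * (Rc c * X)) := by
      calc W * (B * D * S * |MM a X0 δ (κ * cos φ) -
            2 * a * (κ * cos φ) * rexp (a * (κ * cos φ) ^ 2)|)
          = (W * S) * (B * D * |MM a X0 δ (κ * cos φ) -
            2 * a * (κ * cos φ) * rexp (a * (κ * cos φ) ^ 2)|) := by ring
        _ ≤ κ / c * (B * 1 * (Rc c * X)) := by gcongr
    refine h2.trans (le_of_eq ?_)
    rw [hB]
    field_simp
  calc _ ≤ (2 * δ / c * (CE / 2 * (1 / (2 * cos φ * sin β1) + 1 / (2 * cos φ * sin β2)))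
        + 2 * π / (c * cos φ) * Rc c) * X + π / (2 * c * cos φ) * Rc c * X :=
        add_le_add hpart1 hpart2
    _ = _ := by unfold Ci; ring

end Pool.Agent.AEU.H12F.H25
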