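import Pool.Agent.Helper12_AEU.StmtF
import Pool.Agent.Helper25_AEU3.Img4

/-!
helper25, AEU (MP_5b0138_an), Part III, IMG: the statement.
-/

set_option autoImplicit false

namespace Pool.Agent.AEU.H12F.H25

open MeasureTheory Filter Topology Real Set Pool.Agent.AEU.H12

/-- one kernel -/
noncomputable def KC (κ φ d a X0 : ℝ) (p : ℂ × ℂ) : ℝ :=
  H62T.G a (p.1 - p.2) * (H60K.ch X0 p.2 - H60K.ch X0 p.1) *
    H38KL.Kit 0 (κ * ‖Complex.exp ((φ : ℝ) * Complex.I) * (2 * d - (starRingEnd ℂ) p.2)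
      + Complex.exp (-((φ : ℝ) * Complex.I)) * p.1‖)

theorem norm_eq_sqrt (z : ℂ) : ‖z‖ = √(z.re ^ 2 + z.im ^ 2) := by
  rw [Complex.norm_def, Complex.normSq_apply, sq, sq]

theorem KC_e4 {a : ℝ} (ha : 0 < a) (κ φ d X0 : ℝ) (z : (ℝ × ℝ) × (ℝ × ℝ)) :
    KC κ φ d a X0 (e4 z) = K4 κ φ d a X0 z := by
  obtain ⟨⟨X, Y⟩, ⟨r, s⟩⟩ := z
  rw [e4_apply]
  unfold KC K4
  simp only
  have hG : H62T.G a ((⟨X, r⟩ : ℂ) - ⟨Y, s⟩) = g1 a (X - Y) * g1 a (r - s) := by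
    unfold H62T.G g1
    have h1 : ‖(⟨X, r⟩ : ℂ) - ⟨Y, s⟩‖ ^ 2 = (X - Y) ^ 2 + (r - s) ^ 2 := by
      rw [norm_eq_sqrt, Real.sq_sqrt (by positivity)]
      simp
    rw [h1]
    have h2 : rexp (-((X - Y) ^ 2 + (r - s) ^ 2) / (4 * a)) =
        rexp (-((X - Y) ^ 2 / (4 * a))) * rexp (-((r - s) ^ 2 / (4 * a))) := by
      rw [← Real.exp_add]
      congr 1
      ring
    have h3 : (√(4 * π * a))⁻¹ * (√(4 * π * a))⁻¹ = (4 * π * a)⁻¹ := by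
      rw [← mul_inv, Real.mul_self_sqrt (by positivity)]
    rw [h2]
    calc rexp (-((X - Y) ^ 2 / (4 * a))) * rexp (-((r - s) ^ 2 / (4 * a))) / (4 * π * a)
        = (4 * π * a)⁻¹ * (rexp (-((X - Y) ^ 2 / (4 * a))) * rexp (-((r - s) ^ 2 / (4 * a)))) := by
          rw [div_eq_inv_mul]
      _ = _ := by rw [← h3]; ring
  have hK : H38KL.Kit 0 (κ * ‖Complex.exp ((φ : ℝ) * Complex.I) *
      (2 * d - (starRingEnd ℂ) (⟨Y, s⟩ : ℂ))
      + Complex.exp (-((φ : ℝ) * Complex.I)) * (⟨X, r⟩ : ℂ)‖) =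
      kt κ φ (Pf φ d (X, Y)) (qf φ d (X, Y)) (r - s) s := by
    unfold kt
    have e1 : H38KL.Kit 0 = Kit 0 := rfl
    rw [e1, norm_eq_sqrt]
    congr 3
    have hc1 : (Complex.exp ((φ : ℝ) * Complex.I)).re = cos φ := Complex.exp_ofReal_mul_I_re φ
    have hc2 : (Complex.exp ((φ : ℝ) * Complex.I)).im = sin φ := Complex.exp_ofReal_mul_I_im φ
    have e2 : -((φ : ℂ) * Complex.I) = ((-φ : ℝ) : ℂ) * Complex.I := by push_cast; ring
    have hc3 : (Complex.exp (-((φ : ℂ) * Complex.I))).re = cos φ := by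
      rw [e2, Complex.exp_ofReal_mul_I_re, Real.cos_neg]
    have hc4 : (Complex.exp (-((φ : ℂ) * Complex.I))).im = -sin φ := by
      rw [e2, Complex.exp_ofReal_mul_I_im, Real.sin_neg]
    have hre : (Complex.exp ((φ : ℝ) * Complex.I) *
        (2 * d - (starRingEnd ℂ) (⟨Y, s⟩ : ℂ))
        + Complex.exp (-((φ : ℝ) * Complex.I)) * (⟨X, r⟩ : ℂ)).re =
        Pf φ d (X, Y) + (r - s) * sin φ := by
      simp only [Complex.add_re, Complex.mul_re, hc1, hc2, hc3, hc4, Complex.sub_re,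
        Complex.sub_im, Complex.conj_re, Complex.conj_im, Complex.ofReal_re, Complex.ofReal_im,
        Complex.mul_im, Complex.re_ofNat, Complex.im_ofNat]
      unfold Pf
      ring
    have him : (Complex.exp ((φ : ℝ) * Complex.I) *
        (2 * d - (starRingEnd ℂ) (⟨Y, s⟩ : ℂ))
        + Complex.exp (-((φ : ℝ) * Complex.I)) * (⟨X, r⟩ : ℂ)).im =
        (qf φ d (X, Y) + (r - s) * cos φ) + 2 * cos φ * s := by
      simp only [Complex.add_im, Complex.mul_re, hc1, hc2, hc3, hc4, Complex.sub_re,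
        Complex.sub_im, Complex.conj_re, Complex.conj_im, Complex.ofReal_re, Complex.ofReal_im,
        Complex.mul_im, Complex.re_ofNat, Complex.im_ofNat]
      unfold qf
      ring
    rw [hre, him]
  rw [hG, hK]
  have e3 : H60K.ch X0 (⟨Y, s⟩ : ℂ) = chi X0 Y := rfl
  have e4' : H60K.ch X0 (⟨X, r⟩ : ℂ) = chi X0 X := rfl
  rw [e3, e4']
  ring

theorem pre_e4 (X0 δ ζ1 ζ2 : ℝ) :
    e4 ⁻¹' (H60K.Rw X0 δ ζ1 ζ2 ×ˢ H60K.Rw X0 δ ζ1 ζ2) = Iq X0 δ ×ˢ Jw ζ1 ζ2 := by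
  ext ⟨⟨X, Y⟩, ⟨r, s⟩⟩
  rw [mem_preimage, e4_apply]
  simp only [mem_prod, H60K.Rw, Set.mem_ofPred_eq, Iq, Jw, mem_Ioo, abs_lt]
  constructor
  · rintro ⟨⟨⟨h1, h2⟩, h3, h4⟩, ⟨h5, h6⟩, h7, h8⟩
    exact ⟨⟨⟨by linarith, by linarith⟩, by linarith, by linarith⟩, ⟨h3, h4⟩, h7, h8⟩
  · rintro ⟨⟨⟨h1, h2⟩, h5, h6⟩, ⟨h3, h4⟩, h7, h8⟩
    exact ⟨⟨⟨by linarith, by linarith⟩, h3, h4⟩, ⟨by linarith, by linarith⟩, h7, h8⟩

theorem KC_int {κ φ d a δ ζ1 ζ2 : ℝ} (hκ : 0 < κ) (ha : 0 < a) (hφ : 0 < cos φ) (hδ : δ < d) :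
    IntegrableOn (KC κ φ d a (d - 2 * δ)) (H60K.Rw (d - 2 * δ) δ ζ1 ζ2 ×ˢ
      H60K.Rw (d - 2 * δ) δ ζ1 ζ2) ∧
    ∫ p in H60K.Rw (d - 2 * δ) δ ζ1 ζ2 ×ˢ H60K.Rw (d - 2 * δ) δ ζ1 ζ2,
      KC κ φ d a (d - 2 * δ) p = ∫ z in Iq (d - 2 * δ) δ ×ˢ Jw ζ1 ζ2,
        K4 κ φ d a (d - 2 * δ) z := by
  have h1 := K4_int (ζ1 := ζ1) (ζ2 := ζ2) hκ ha hφ hδ
  have hf : (fun z => KC κ φ d a (d - 2 * δ) (e4 z)) = K4 κ φ d a (d - 2 * δ) :=
    funext fun z => KC_e4 ha κ φ d _ z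
  constructor
  · rw [← e4_mp.integrableOn_comp_preimage e4.measurableEmbedding, pre_e4]
    exact (hf ▸ h1 : _)
  · rw [← e4_mp.setIntegral_preimage_emb e4.measurableEmbedding, pre_e4]
    simp_rw [KC_e4 ha]

theorem img : Pool.Agent.AEU.H12F.ImgStatement := by
  intro η1 η2 d ε hη1 hη1' hη2 hη2' hd hε hsum hang
  set φ := π / 2 - (η1 + η2) with hφdef
  have hcφ : cos φ = sin (η1 + η2) := by rw [hφdef, Real.cos_pi_div_two_sub]
  have hφ : 0 < cos φ := by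
    rw [hcφ]
    exact sin_pos_of_pos_of_lt_pi (by linarith) (by linarith [pi_pos])
  have hc1 := Real.cos_le_one φ
  have hs1 : 0 < sin η1 := sin_pos_of_pos_of_lt_pi hη1 (by linarith [pi_pos])
  have hs2 : 0 < sin η2 := sin_pos_of_pos_of_lt_pi hη2 (by linarith [pi_pos])
  have hk1 : 0 < cos η1 := cos_pos_of_mem_Ioo ⟨by linarith [pi_pos], hη1'⟩
  have hk2 : 0 < cos η2 := cos_pos_of_mem_Ioo ⟨by linarith [pi_pos], hη2'⟩
  have ht1 : 0 < tan η1 := tan_pos_of_pos_of_lt_pi_div_two hη1 hη1'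
  have ht2 : 0 < tan η2 := tan_pos_of_pos_of_lt_pi_div_two hη2 hη2'
  have hs1' := Real.sin_le_one η1
  have hs2' := Real.sin_le_one η2
  have hk1' := Real.cos_le_one η1
  have hk2' := Real.cos_le_one η2
  set E := 2 * H60K.hb η1 η2 d - ε with hE
  have hhb1 : H60K.hb η1 η2 d ≤ d * cos φ / cos η1 := by
    unfold H60K.hb
    refine (min_le_left _ _).trans (le_of_eq ?_)
    rw [hcφ]; ring
  have hhb2 : H60K.hb η1 η2 d ≤ d * cos φ / cos η2 := by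
    unfold H60K.hb
    refine (min_le_right _ _).trans (le_of_eq ?_)
    rw [hcφ]; ring
  have hid : ∀ η : ℝ, 0 < cos η → cos η + sin η * tan η = 1 / cos η := by
    intro η h
    rw [Real.tan_eq_sin_div_cos]
    field_simp
    linarith only [Real.sin_sq_add_cos_sq η]
  refine ⟨min (ε / 4) (min (d * tan η1 / 2) (d * tan η2 / 2)), by positivity, ?_⟩
  intro ρ hρ hρ0
  rw [lt_min_iff, lt_min_iff] at hρ0
  obtain ⟨hρ1, hρ2, hρ3⟩ := hρ0
  refine ⟨min (ε / 24) (min (d * tan η1 / 2) (min (d * tan η2 / 2) (min (d / 3)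
    (min (d * cos φ * cos η1 / 5) (d * cos φ * cos η2 / 5))))), by positivity, ?_⟩
  intro δ hδ hδ0
  simp only [lt_min_iff] at hδ0
  obtain ⟨hδ1, hδ2, hδ3, hδ4, hδ5, hδ6⟩ := hδ0
  have hδd : δ < d := by linarith only [hδ, hδ4]
  have hz1 : δ ≤ d * tan η1 - ρ := by linarith only [hρ2, hδ2]
  have hz2 : δ ≤ d * tan η2 - ρ := by linarith only [hρ3, hδ3]
  have hPm : δ ≤ cos φ * (2 * d - 2 * δ) := by
    have h1 : d * cos φ * cos η1 ≤ d * cos φ * 1 := by gcongr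
    have h2 : cos φ * δ ≤ 1 * δ := by gcongr
    linarith only [h1, h2, hδ5, hδ]
  have hm : ∀ η : ℝ, 0 < cos η → δ < d * cos φ * cos η / 5 →
      0 < (cos φ * (2 * d - 2 * δ) - δ) * cos η - 6 * δ - δ := by
    intro η h h'
    have h3 := Real.cos_le_one η
    have h1 : cos φ * δ * cos η ≤ 1 * δ * 1 := by gcongr
    have h2 : δ * cos η ≤ δ * 1 := by gcongr
    linarith only [h1, h2, h', hδ]
  have hEE : ∀ η : ℝ, 0 < cos η → 0 < sin η → H60K.hb η1 η2 d ≤ d * cos φ / cos η →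
      E ≤ (cos φ * (2 * d - 2 * δ) - δ) * cos η - 6 * δ - δ +
        2 * cos φ * sin η * (d * tan η - ρ - δ) := by
    intro η h h0 h'
    have h3 := Real.cos_le_one η
    have h4 := Real.sin_le_one η
    have h1 : cos φ * δ * cos η ≤ 1 * δ * 1 := by gcongr
    have h2 : δ * cos η ≤ δ * 1 := by gcongr
    have h5 : cos φ * sin η * (ρ + δ) ≤ 1 * 1 * (ρ + δ) := by gcongr
    have h6 : d * cos φ / cos η = d * cos φ * (cos η + sin η * tan η) := by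
      rw [hid η h]; ring
    rw [h6] at h'
    rw [hE]
    linarith only [h1, h2, h5, h', hρ1, hδ1, hδ, hρ]
  have hm1 := hm η1 hk1 hδ5
  have hm2 := hm η2 hk2 hδ6
  set M1 := (cos φ * (2 * d - 2 * δ) - δ) * cos η1 - 6 * δ - δ with hM1
  set M2 := (cos φ * (2 * d - 2 * δ) - δ) * cos η2 - 6 * δ - δ with hM2
  refine ⟨min (δ / 8) (δ ^ 2 / (16 * (|E| + 1))), by positivity, ?_⟩
  intro c hc hc0
  rw [lt_min_iff] at hc0
  obtain ⟨hc8, hc9⟩ := hc0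
  have hc8' : 8 * c ≤ δ := by linarith only [hc8]
  have hcE : E ≤ δ ^ 2 / (16 * c) := by
    rw [lt_div_iff₀ (by positivity)] at hc9
    rw [le_div_iff₀ (by positivity)]
    have h1 : E * (16 * c) ≤ |E| * (16 * c) := by
      have := le_abs_self E
      gcongr
    linarith only [h1, hc9, hc]
  refine ⟨Ci φ c δ η1 η2 + Ci (-φ) c δ η1 η2, max 1 (max (1 / M1) (1 / M2)), by positivity, ?_⟩
  intro κ hκ
  simp only [max_le_iff] at hκ
  obtain ⟨hκ1, hκ2, hκ3⟩ := hκ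
  have hκ0 : 0 < κ := by linarith only [hκ1]
  have hκm1 : 1 ≤ κ * M1 := by rwa [div_le_iff₀ hm1] at hκ2
  have hκm2 : 1 ≤ κ * M2 := by rwa [div_le_iff₀ hm2] at hκ3
  have ha : 0 < c / κ := by positivity
  have hφ' : 0 < cos (-φ) := by rwa [Real.cos_neg]
  have o1 := os (E := E) hδ hδd hc hκ1 hφ hη1 hη1' hη2 hη2' hz1 hz2 hκm1 hκm2 hPm
    (hEE η1 hk1 hs1 hhb1) (hEE η2 hk2 hs2 hhb2) hc8' hcE
  have o2 := os (φ := -φ) (E := E) (d := d) (c := c) (κ := κ) (δ := δ) (ζ1 := d * tan η1 - ρ)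
    (ζ2 := d * tan η2 - ρ) (β1 := η1) (β2 := η2) hδ hδd hc hκ1 hφ' hη1 hη1' hη2 hη2' hz1 hz2
    (by rw [Real.cos_neg]; exact hκm1) (by rw [Real.cos_neg]; exact hκm2)
    (by rw [Real.cos_neg]; exact hPm) (by rw [Real.cos_neg]; exact hEE η1 hk1 hs1 hhb1)
    (by rw [Real.cos_neg]; exact hEE η2 hk2 hs2 hhb2) hc8' hcE
  obtain ⟨i1, j1⟩ := KC_int (κ := κ) (φ := φ) (d := d) (a := c / κ) (δ := δ)
    (ζ1 := d * tan η1 - ρ) (ζ2 := d * tan η2 - ρ) hκ0 ha hφ hδd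
  obtain ⟨i2, j2⟩ := KC_int (κ := κ) (φ := -φ) (d := d) (a := c / κ) (δ := δ)
    (ζ1 := d * tan η1 - ρ) (ζ2 := d * tan η2 - ρ) hκ0 ha hφ' hδd
  rw [← j1] at o1
  rw [← j2, Real.cos_neg] at o2
  have hint : (∫ x in H60K.Rw (d - 2 * δ) δ (d * Real.tan η1 - ρ) (d * Real.tan η2 - ρ),
          ∫ y in H60K.Rw (d - 2 * δ) δ (d * Real.tan η1 - ρ) (d * Real.tan η2 - ρ),
          H62T.G (c / κ) (x - y) * (H60K.ch (d - 2 * δ) y - H60K.ch (d - 2 * δ) x) *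
          (H38KL.Kit 0 (κ * ‖Complex.exp ((φ : ℝ) * Complex.I) * (2 * d - (starRingEnd ℂ) y)
              + Complex.exp (-((φ : ℝ) * Complex.I)) * x‖) +
            H38KL.Kit 0 (κ * ‖Complex.exp (-((φ : ℝ) * Complex.I)) * (2 * d - (starRingEnd ℂ) y)
              + Complex.exp ((φ : ℝ) * Complex.I) * x‖))) =
      (∫ p in H60K.Rw (d - 2 * δ) δ (d * Real.tan η1 - ρ) (d * Real.tan η2 - ρ) ×ˢ
        H60K.Rw (d - 2 * δ) δ (d * Real.tan η1 - ρ) (d * Real.tan η2 - ρ),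
          KC κ φ d (c / κ) (d - 2 * δ) p) +
      ∫ p in H60K.Rw (d - 2 * δ) δ (d * Real.tan η1 - ρ) (d * Real.tan η2 - ρ) ×ˢ
        H60K.Rw (d - 2 * δ) δ (d * Real.tan η1 - ρ) (d * Real.tan η2 - ρ),
          KC κ (-φ) d (c / κ) (d - 2 * δ) p := by
    rw [← integral_add i1 i2]
    have i3 : IntegrableOn (fun p => KC κ φ d (c / κ) (d - 2 * δ) p +
        KC κ (-φ) d (c / κ) (d - 2 * δ) p)
        (H60K.Rw (d - 2 * δ) δ (d * Real.tan η1 - ρ) (d * Real.tan η2 - ρ) ×ˢ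
        H60K.Rw (d - 2 * δ) δ (d * Real.tan η1 - ρ) (d * Real.tan η2 - ρ)) := i1.add i2
    rw [Measure.volume_eq_prod] at i3 ⊢
    rw [setIntegral_prod _ i3]
    refine integral_congr_ae (Eventually.of_forall fun x => ?_)
    refine integral_congr_ae (Eventually.of_forall fun y => ?_)
    simp only [KC]
    push_cast
    rw [neg_mul, neg_neg]
    ring
  rw [hint]
  have hsum2 : κ / c * rexp (-(κ * c)) *
      ((∫ p in H60K.Rw (d - 2 * δ) δ (d * Real.tan η1 - ρ) (d * Real.tan η2 - ρ) ×ˢ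
        H60K.Rw (d - 2 * δ) δ (d * Real.tan η1 - ρ) (d * Real.tan η2 - ρ),
          KC κ φ d (c / κ) (d - 2 * δ) p) +
      ∫ p in H60K.Rw (d - 2 * δ) δ (d * Real.tan η1 - ρ) (d * Real.tan η2 - ρ) ×ˢ
        H60K.Rw (d - 2 * δ) δ (d * Real.tan η1 - ρ) (d * Real.tan η2 - ρ),
          KC κ (-φ) d (c / κ) (d - 2 * δ) p) - 2 * π * rexp (-(2 * d * κ * sin (η1 + η2))) =
      (κ / c * rexp (-(κ * c)) *
      (∫ p in H60K.Rw (d - 2 * δ) δ (d * Real.tan η1 - ρ) (d * Real.tan η2 - ρ) ×ˢ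
        H60K.Rw (d - 2 * δ) δ (d * Real.tan η1 - ρ) (d * Real.tan η2 - ρ),
          KC κ φ d (c / κ) (d - 2 * δ) p) - π * rexp (-(2 * d * κ * cos φ))) +
      (κ / c * rexp (-(κ * c)) *
      (∫ p in H60K.Rw (d - 2 * δ) δ (d * Real.tan η1 - ρ) (d * Real.tan η2 - ρ) ×ˢ
        H60K.Rw (d - 2 * δ) δ (d * Real.tan η1 - ρ) (d * Real.tan η2 - ρ),
          KC κ (-φ) d (c / κ) (d - 2 * δ) p) - π * rexp (-(2 * d * κ * cos φ))) := by
    rw [hcφ]; ring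
  rw [hsum2]
  refine (abs_add_le _ _).trans ?_
  refine (add_le_add o1 o2).trans (le_of_eq ?_)
  ring

end Pool.Agent.AEU.H12F.H25
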