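import Pool.Agent.Helper12_AEU.Tail
import Pool.Agent.Helper38_KL.Kit

/-!
helper25, AEU (MP_5b0138_an), Part III, IMG: line integrals of Macdonald's function.
-/

set_option autoImplicit false

namespace Pool.Agent.AEU.H12F.H25

open MeasureTheory Filter Topology Real Set Pool.Agent.AEU.H12

/-- contour shift -/
theorem kitShift : KitShift := by
  intro τ x φ hx hφ
  have h := H38KL.fourier_Kit hx τ hφ
  have e1 : H38KL.Kit τ x = Kit τ x := rfl
  have e2 : ∀ v : ℝ, pwi (x * cos φ) (-(x * sin φ)) τ v =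
      Complex.exp (-(x * Complex.cosh (v + φ * Complex.I))) * Complex.exp (Complex.I * τ * v) := by
    intro v
    unfold pwi
    rw [← Complex.exp_add, Complex.cosh_add, Complex.cosh_mul_I, Complex.sinh_mul_I]
    congr 1
    push_cast
    ring
  simp_rw [e2]
  rw [h, e1]
  push_cast
  ring

theorem kit0_eq {x : ℝ} : Kit 0 x = E0 x / 2 := by
  have h := H38KL.two_Kit x 0
  have e1 : H38KL.Kit 0 x = Kit 0 x := rfl
  rw [e1] at h
  simp only [zero_mul, cos_zero, mul_one] at h
  unfold E0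
  linarith

theorem kit0_nonneg (x : ℝ) : 0 ≤ Kit 0 x := by
  rw [kit0_eq]
  have := E0_nonneg x
  positivity

theorem kit0_le {x y : ℝ} (hy : 1 ≤ y) (hxy : y ≤ x) : Kit 0 x ≤ CE / 2 * rexp (-y) := by
  have h1 := E0_anti (by linarith) hxy
  have h2 := E0_le_exp hy
  rw [kit0_eq]
  linarith

theorem kit0_meas : Measurable (Kit 0) := by
  have : Measurable E0 := by
    unfold E0
    have h : Measurable (Function.uncurry fun x v : ℝ => rexp (-(x * cosh v))) := by
      unfold Function.uncurry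
      fun_prop
    exact (h.stronglyMeasurable.integral_prod_right).measurable
  have e : Kit 0 = fun x => E0 x / 2 := funext fun x => kit0_eq
  rw [e]
  exact this.div_const 2

/-- integral over a line -/
theorem kit0_line {p : ℝ} (hp : 0 < p) :
    Integrable (fun s : ℝ => Kit 0 (√(p ^ 2 + s ^ 2))) ∧
      ∫ s : ℝ, Kit 0 (√(p ^ 2 + s ^ 2)) = π * rexp (-p) := by
  have e1 : ∀ s : ℝ, pw p s 0 = ((Kit 0 (√(p ^ 2 + s ^ 2)) : ℝ) : ℂ) := by
    intro s
    rw [pw_eq kitShift 0 hp]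
    simp
  have h1 := int_pw_line kitShift hp 0
  have h2 := ft_pw kitShift hp 0 0
  simp_rw [e1] at h1 h2
  refine ⟨?_, ?_⟩
  · have := h1.re
    simpa using this
  · simp only [sinh_zero, mul_zero, Complex.ofReal_zero, zero_mul, Complex.exp_zero, mul_one,
      cosh_zero, div_one, neg_zero, add_zero] at h2
    rw [integral_complex_ofReal] at h2
    have h3 : Complex.exp ((-p : ℝ) : ℂ) = ((rexp (-p) : ℝ) : ℂ) := by
      rw [Complex.ofReal_exp]
    rw [h3] at h2
    exact_mod_cast h2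

theorem kit0_line2 {κ p c : ℝ} (hκ : 0 < κ) (hp : p ≠ 0) (hc : 0 < c) (b : ℝ) :
    Integrable (fun s : ℝ => Kit 0 (κ * √(p ^ 2 + (b + 2 * c * s) ^ 2))) ∧
      ∫ s : ℝ, Kit 0 (κ * √(p ^ 2 + (b + 2 * c * s) ^ 2)) = π / (2 * κ * c) * rexp (-(κ * |p|)) := by
  have hp' : 0 < κ * |p| := mul_pos hκ (abs_pos.2 hp)
  obtain ⟨h1, h2⟩ := kit0_line hp'
  have e : ∀ s : ℝ, Kit 0 (κ * √(p ^ 2 + (b + 2 * c * s) ^ 2)) =
      (fun u => Kit 0 (√((κ * |p|) ^ 2 + u ^ 2))) ((κ * b) + (2 * κ * c) * s) := by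
    intro s
    simp only
    congr 1
    rw [← Real.sqrt_sq hκ.le, ← Real.sqrt_mul (by positivity), Real.sqrt_sq hκ.le]
    congr 1
    rw [mul_pow κ |p|, sq_abs]
    ring
  have ha : (2 * κ * c) ≠ 0 := by positivity
  simp_rw [e]
  constructor
  · have := (h1.comp_add_left (κ * b)).comp_mul_left' ha
    exact this
  · have h3 := Measure.integral_comp_mul_left
      (fun v => (fun u => Kit 0 (√((κ * |p|) ^ 2 + u ^ 2))) ((κ * b) + v)) (2 * κ * c)
    simp only at h3
    rw [h3, integral_add_left_eq_self (fun u => Kit 0 (√((κ * |p|) ^ 2 + u ^ 2))) (κ * b), h2,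
      smul_eq_mul, abs_of_pos (by positivity)]
    field_simp

end Pool.Agent.AEU.H12F.H25
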