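import Pool.Agent.Helper25_AEU3.Img0

/-!
helper25, AEU (MP_5b0138_an), Part III, IMG: the integral over the heights.
-/

set_option autoImplicit false

namespace Pool.Agent.AEU.H12F.H25

open MeasureTheory Filter Topology Real Set Pool.Agent.AEU.H12

/-- image kernel, `w` is the difference of the heights -/
noncomputable def kt (κ φ P q w s : ℝ) : ℝ :=
  Kit 0 (κ * √((P + w * sin φ) ^ 2 + ((q + w * cos φ) + 2 * cos φ * s) ^ 2))

theorem kt_nonneg (κ φ P q w s : ℝ) : 0 ≤ kt κ φ P q w s := kit0_nonneg _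

theorem kt_meas (κ φ : ℝ) : Measurable fun z : (ℝ × ℝ) × (ℝ × ℝ) => kt κ φ z.1.1 z.1.2 z.2.1 z.2.2 := by
  unfold kt
  apply kit0_meas.comp
  fun_prop

theorem kt_meas2 (κ φ P q : ℝ) : Measurable fun z : ℝ × ℝ => kt κ φ P q z.1 z.2 := by
  have h1 : Measurable fun z : ℝ × ℝ => (((P, q), z) : (ℝ × ℝ) × (ℝ × ℝ)) := by fun_prop
  have h2 := (kt_meas κ φ).comp h1
  simpa only [Function.comp_def] using h2

theorem kt_meas1 (κ φ P q w : ℝ) : Measurable fun s : ℝ => kt κ φ P q w s := by
  unfold kt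
  apply kit0_meas.comp
  fun_prop

theorem ae_ne {P φ : ℝ} (hP : 0 < P) : ∀ᵐ w : ℝ, P + w * sin φ ≠ 0 := by
  rw [ae_iff]
  have : {w : ℝ | ¬ (P + w * sin φ ≠ 0)}.Subsingleton := by
    intro w hw w' hw'
    simp only [not_not, mem_ofPred_eq] at hw hw'
    have h1 : sin φ ≠ 0 := by
      intro h
      rw [h] at hw
      linarith
    have h2 : (w - w') * sin φ = 0 := by linarith
    rcases mul_eq_zero.1 h2 with h | h
    · linarith
    · exact absurd h h1
  exact this.measure_zero _

theorem kt_line {κ φ P q w : ℝ} (hκ : 0 < κ) (hφ : 0 < cos φ) (hw : P + w * sin φ ≠ 0) :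
    Integrable (fun s => kt κ φ P q w s) ∧
      ∫ s, kt κ φ P q w s = π / (2 * κ * cos φ) * rexp (-(κ * |P + w * sin φ|)) :=
  kit0_line2 hκ hw hφ _

theorem g1_meas (a : ℝ) : Measurable (g1 a) := (continuous_g1 a).measurable

theorem F_int {κ φ P q a : ℝ} (hκ : 0 < κ) (ha : 0 < a) (hφ : 0 < cos φ) (hP : 0 < P) :
    Integrable fun z : ℝ × ℝ => g1 a z.1 * kt κ φ P q z.1 z.2 := by
  have hm : Measurable fun z : ℝ × ℝ => g1 a z.1 * kt κ φ P q z.1 z.2 :=
    ((g1_meas a).comp measurable_fst).mul (kt_meas2 κ φ P q)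
  rw [Measure.volume_eq_prod, integrable_prod_iff (by
    rw [← Measure.volume_eq_prod]; exact hm.aestronglyMeasurable)]
  constructor
  · filter_upwards [ae_ne (φ := φ) hP] with w hw
    exact (kt_line hκ hφ hw).1.const_mul _
  · have h1 : (fun w => ∫ s, ‖g1 a w * kt κ φ P q w s‖) =ᵐ[volume]
        fun w => g1 a w * (π / (2 * κ * cos φ) * rexp (-(κ * |P + w * sin φ|))) := by
      filter_upwards [ae_ne (φ := φ) hP] with w hw
      have : ∀ s, ‖g1 a w * kt κ φ P q w s‖ = g1 a w * kt κ φ P q w s := fun s =>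
        Real.norm_of_nonneg (mul_nonneg (g1_nonneg _ _) (kt_nonneg _ _ _ _ _ _))
      simp_rw [this]
      rw [integral_const_mul, (kt_line hκ hφ hw).2]
    rw [integrable_congr h1]
    refine ((int_g1 ha).mul_const (π / (2 * κ * cos φ))).mono' ?_ (Eventually.of_forall fun w => ?_)
    · have := g1_meas a
      exact (by fun_prop : Measurable fun w => g1 a w *
        (π / (2 * κ * cos φ) * rexp (-(κ * |P + w * sin φ|)))).aestronglyMeasurable
    · have h2 : rexp (-(κ * |P + w * sin φ|)) ≤ 1 := Real.exp_le_one_iff.2 (by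
        have := mul_nonneg hκ.le (abs_nonneg (P + w * sin φ)); linarith)
      have h3 : 0 ≤ π / (2 * κ * cos φ) := by positivity
      have h4 := g1_nonneg a w
      rw [Real.norm_of_nonneg (by positivity)]
      have h5 : π / (2 * κ * cos φ) * rexp (-(κ * |P + w * sin φ|)) ≤ π / (2 * κ * cos φ) * 1 :=
        mul_le_mul_of_nonneg_left h2 h3
      rw [mul_one] at h5
      exact mul_le_mul_of_nonneg_left h5 h4

/-- the kernel integrated over the heights in `J` -/
noncomputable def HJ (κ φ P q a : ℝ) (J : Set (ℝ × ℝ)) : ℝ :=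
  ∫ r in J, g1 a (r.1 - r.2) * kt κ φ P q (r.1 - r.2) r.2

/-- section of `J` -/
noncomputable def DJ (κ φ P q : ℝ) (J : Set (ℝ × ℝ)) (w : ℝ) : ℝ :=
  ∫ s, J.indicator (fun _ => (1 : ℝ)) (w + s, s) * kt κ φ P q w s

theorem HJ_int {κ φ P q a : ℝ} (hκ : 0 < κ) (ha : 0 < a) (hφ : 0 < cos φ) (hP : 0 < P) :
    Integrable fun r : ℝ × ℝ => g1 a (r.1 - r.2) * kt κ φ P q (r.1 - r.2) r.2 :=
  (measurePreserving_sub_prod (volume : Measure ℝ) (volume : Measure ℝ)).integrable_comp_of_integrable
    (F_int hκ ha hφ hP)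

theorem HJ_eq {κ φ P q a : ℝ} (hκ : 0 < κ) (ha : 0 < a) (hφ : 0 < cos φ) (hP : 0 < P)
    {J : Set (ℝ × ℝ)} (hJ : MeasurableSet J) :
    HJ κ φ P q a J = ∫ w, g1 a w * DJ κ φ P q J w ∧
      Integrable fun w => g1 a w * DJ κ φ P q J w := by
  unfold HJ
  rw [← integral_indicator hJ]
  have hmp := measurePreserving_add_prod (volume : Measure ℝ) (volume : Measure ℝ)
  have hi : Integrable (J.indicator fun r : ℝ × ℝ => g1 a (r.1 - r.2) * kt κ φ P q (r.1 - r.2) r.2) :=
    (HJ_int hκ ha hφ hP).indicator hJ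
  have h1 := integral_map (φ := fun z : ℝ × ℝ => (z.1 + z.2, z.2)) hmp.measurable.aemeasurable
    (f := J.indicator fun r : ℝ × ℝ => g1 a (r.1 - r.2) * kt κ φ P q (r.1 - r.2) r.2)
    (by rw [hmp.map_eq]; exact hi.aestronglyMeasurable)
  rw [hmp.map_eq, ← Measure.volume_eq_prod] at h1
  rw [h1]
  have h2 : ∀ z : ℝ × ℝ, J.indicator (fun r : ℝ × ℝ => g1 a (r.1 - r.2) *
      kt κ φ P q (r.1 - r.2) r.2) (z.1 + z.2, z.2)
      = g1 a z.1 * (J.indicator (fun _ => (1 : ℝ)) (z.1 + z.2, z.2) * kt κ φ P q z.1 z.2) := by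
    intro z
    by_cases hz : (z.1 + z.2, z.2) ∈ J
    · rw [indicator_of_mem hz, indicator_of_mem hz]
      simp only [add_sub_cancel_right]
      ring
    · rw [indicator_of_notMem hz, indicator_of_notMem hz]
      ring
  simp_rw [h2]
  have hi2 : Integrable fun z : ℝ × ℝ => g1 a z.1 *
      (J.indicator (fun _ => (1 : ℝ)) (z.1 + z.2, z.2) * kt κ φ P q z.1 z.2) := by
    have := hmp.integrable_comp_of_integrable hi
    refine this.congr (Eventually.of_forall fun z => ?_)
    exact h2 z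
  rw [Measure.volume_eq_prod] at hi2
  have e : ∀ w, ∫ s, g1 a w * (J.indicator (fun _ => (1 : ℝ)) (w + s, s) * kt κ φ P q w s)
      = g1 a w * DJ κ φ P q J w := fun w => integral_const_mul (g1 a w) _
  constructor
  · rw [Measure.volume_eq_prod, integral_prod _ hi2]
    exact integral_congr_ae (Eventually.of_forall fun w => e w)
  · have h3 := hi2.integral_prod_left
    exact h3.congr (Eventually.of_forall fun w => e w)

theorem RR_neg (A Δ lam : ℝ) : RR A Δ (-lam) = RR A Δ lam := by
  unfold RR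
  rw [← integral_neg_eq_self (fun w => (Ioo (-Δ) Δ)ᶜ.indicator
    (fun w => 2 * |w| * (g1 A w * rexp (-(w * -lam)))) w) volume]
  refine integral_congr_ae (Eventually.of_forall fun w => ?_)
  simp only
  have e1 : g1 A (-w) = g1 A w := by unfold g1; rw [neg_sq]
  by_cases hw : w ∈ (Ioo (-Δ) Δ)ᶜ
  · have hw' : -w ∈ (Ioo (-Δ) Δ)ᶜ := by
      intro h
      apply hw
      exact ⟨by linarith [h.2], by linarith [h.1]⟩
    rw [indicator_of_mem hw, indicator_of_mem hw', abs_neg, e1]
    congr 3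
    ring
  · have hw' : -w ∉ (Ioo (-Δ) Δ)ᶜ := by
      intro h
      apply hw
      intro h2
      apply h
      exact ⟨by linarith [h2.2], by linarith [h2.1]⟩
    rw [indicator_of_notMem hw, indicator_of_notMem hw']

theorem HJ_est {κ φ P q a μ T : ℝ} (hκ : 0 < κ) (ha : 0 < a) (hφ : 0 < cos φ)
    (hμ : 0 < μ) (hμP : μ ≤ P) {J : Set (ℝ × ℝ)} (hJ : MeasurableSet J) (hT0 : 0 ≤ T)
    (hT : ∀ w, |w| < μ → ∫ s, (1 - J.indicator (fun _ => (1 : ℝ)) (w + s, s)) * kt κ φ P q w s ≤ T) :
    |HJ κ φ P q a J - π / (2 * κ * cos φ) * rexp (-(κ * P)) * rexp (a * (κ * sin φ) ^ 2)|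
      ≤ T + π / (2 * κ * cos φ) * (2 / μ * RR a μ κ) := by
  have hP : 0 < P := lt_of_lt_of_le hμ hμP
  obtain ⟨hH, hHi⟩ := HJ_eq hκ ha hφ hP hJ (q := q)
  set B : ℝ := π / (2 * κ * cos φ) with hB
  have hB0 : 0 < B := by positivity
  have hs1 := Real.abs_sin_le_one φ
  have hi2 : Integrable fun w => g1 a w * (B * rexp (-(κ * (P + w * sin φ)))) := by
    refine ((int_g1_exp ha (κ * sin φ)).const_mul (B * rexp (-(κ * P)))).congr
      (Eventually.of_forall fun w => ?_)
    simp only
    have : rexp (-(κ * (P + w * sin φ))) = rexp (-(κ * P)) * rexp (-(w * (κ * sin φ))) := by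
      rw [← Real.exp_add]; congr 1; ring
    rw [this]
    ring
  have hA : B * rexp (-(κ * P)) * rexp (a * (κ * sin φ) ^ 2)
      = ∫ w, g1 a w * (B * rexp (-(κ * (P + w * sin φ)))) := by
    have e1 : ∀ w, g1 a w * (B * rexp (-(κ * (P + w * sin φ)))) =
        (fun v => B * rexp (-(κ * P)) * rexp (a * (κ * sin φ) ^ 2) * g1 a v)
          (w + 2 * a * (κ * sin φ)) := by
      intro w
      simp only
      have h2 := g1_shift ha (κ * sin φ) w
      have : rexp (-(κ * (P + w * sin φ))) = rexp (-(κ * P)) * rexp (-(w * (κ * sin φ))) := by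
        rw [← Real.exp_add]; congr 1; ring
      rw [this]
      calc g1 a w * (B * (rexp (-(κ * P)) * rexp (-(w * (κ * sin φ)))))
          = B * rexp (-(κ * P)) * (g1 a w * rexp (-(w * (κ * sin φ)))) := by ring
        _ = _ := by rw [h2]; ring
    simp_rw [e1]
    rw [integral_add_right_eq_self (fun v => B * rexp (-(κ * P)) * rexp (a * (κ * sin φ) ^ 2) *
      g1 a v), integral_const_mul, integral_g1 ha, mul_one]
  rw [hH, hA, ← integral_sub hHi hi2]
  obtain ⟨f1, hf1⟩ : ∃ f : ℝ → ℝ, f = (Ioo (-μ) μ)ᶜ.indicator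
    (fun w => 2 * |w| * (g1 a w * rexp (-(w * κ)))) := ⟨_, rfl⟩
  obtain ⟨f2, hf2⟩ : ∃ f : ℝ → ℝ, f = (Ioo (-μ) μ)ᶜ.indicator
    (fun w => 2 * |w| * (g1 a w * rexp (-(w * -κ)))) := ⟨_, rfl⟩
  have hr1 : Integrable f1 := by
    rw [hf1]; exact (int_abs_g1_exp ha κ).indicator (measurableSet_Ioo (a := -μ) (b := μ)).compl
  have hr2 : Integrable f2 := by
    rw [hf2]; exact (int_abs_g1_exp ha (-κ)).indicator (measurableSet_Ioo (a := -μ) (b := μ)).compl
  have hr12 : Integrable fun w => f1 w + f2 w := hr1.add hr2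
  have hbd2 : Integrable fun w => B * (1 / μ * (f1 w + f2 w)) :=
    (hr12.const_mul (1 / μ)).const_mul B
  have hbd1 : Integrable fun w => T * g1 a w := (int_g1 ha).const_mul T
  have hbd : Integrable fun w => T * g1 a w + B * (1 / μ * (f1 w + f2 w)) := hbd1.add hbd2
  have hn := norm_integral_le_integral_norm (μ := (volume : Measure ℝ)) (fun w =>
    g1 a w * DJ κ φ P q J w - g1 a w * (B * rexp (-(κ * (P + w * sin φ)))))
  rw [Real.norm_eq_abs] at hn
  refine hn.trans ?_
  have hfin : ∫ w, (T * g1 a w + B * (1 / μ * (f1 w + f2 w))) = T + B * (2 / μ * RR a μ κ) := by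
    rw [integral_add hbd1 hbd2, integral_const_mul, integral_g1 ha, mul_one, integral_const_mul,
      integral_const_mul, integral_add hr1 hr2]
    have e1 : ∫ w, f1 w = RR a μ κ := by rw [hf1]; rfl
    have e2 : ∫ w, f2 w = RR a μ κ := by rw [hf2]; exact RR_neg a μ κ
    rw [e1, e2]
    ring
  rw [← hfin]
  refine integral_mono_ae (hHi.sub hi2).norm hbd ?_
  filter_upwards [ae_ne (φ := φ) hP] with w hw
  obtain ⟨hk1, hk2⟩ := kt_line (q := q) hκ hφ hw
  have hg := g1_nonneg a w
  have hind : ∀ s, 0 ≤ J.indicator (fun _ => (1 : ℝ)) (w + s, s) ∧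
      J.indicator (fun _ => (1 : ℝ)) (w + s, s) ≤ 1 := by
    intro s
    by_cases h : (w + s, s) ∈ J
    · rw [indicator_of_mem h]; norm_num
    · rw [indicator_of_notMem h]; norm_num
  have hmi : Measurable fun s : ℝ => J.indicator (fun _ => (1 : ℝ)) (w + s, s) :=
    (measurable_const.indicator hJ).comp (by fun_prop : Measurable fun s : ℝ => (w + s, s))
  have hki : Integrable fun s => J.indicator (fun _ => (1 : ℝ)) (w + s, s) * kt κ φ P q w s := by
    refine hk1.mono' (hmi.mul (kt_meas1 κ φ P q w)).aestronglyMeasurable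
      (Eventually.of_forall fun s => ?_)
    rw [Real.norm_of_nonneg (mul_nonneg (hind s).1 (kt_nonneg _ _ _ _ _ _))]
    have := mul_le_mul_of_nonneg_right (hind s).2 (kt_nonneg κ φ P q w s)
    linarith
  have hD0 : 0 ≤ DJ κ φ P q J w :=
    integral_nonneg fun s => mul_nonneg (hind s).1 (kt_nonneg _ _ _ _ _ _)
  have hD1 : DJ κ φ P q J w ≤ B * rexp (-(κ * |P + w * sin φ|)) := by
    rw [← hk2]
    refine integral_mono hki hk1 fun s => ?_
    have := mul_le_mul_of_nonneg_right (hind s).2 (kt_nonneg κ φ P q w s)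
    simp only
    linarith
  rw [← mul_sub, norm_mul, Real.norm_of_nonneg hg, Real.norm_eq_abs]
  by_cases hwμ : |w| < μ
  · -- near
    have hpos : 0 < P + w * sin φ := by
      have h1 : |w * sin φ| < μ := by
        rw [abs_mul]
        calc |w| * |sin φ| ≤ |w| * 1 := mul_le_mul_of_nonneg_left hs1 (abs_nonneg _)
          _ < μ := by rw [mul_one]; exact hwμ
      have := neg_abs_le (w * sin φ)
      linarith
    have hsub : B * rexp (-(κ * (P + w * sin φ))) - DJ κ φ P q J w
        = ∫ s, (1 - J.indicator (fun _ => (1 : ℝ)) (w + s, s)) * kt κ φ P q w s := by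
      unfold DJ
      rw [abs_of_pos hpos] at hk2
      rw [← hk2, ← integral_sub hk1 hki]
      refine integral_congr_ae (Eventually.of_forall fun s => ?_)
      simp only
      ring
    have h1 := hT w hwμ
    rw [← hsub] at h1
    have h2 : DJ κ φ P q J w ≤ B * rexp (-(κ * (P + w * sin φ))) := by
      rw [abs_of_pos hpos] at hD1
      exact hD1
    have h3 : |DJ κ φ P q J w - B * rexp (-(κ * (P + w * sin φ)))| ≤ T := by
      rw [abs_sub_comm, abs_of_nonneg (by linarith)]
      exact h1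
    have hwn : w ∉ (Ioo (-μ) μ)ᶜ := fun h => h (abs_lt.1 hwμ)
    have h4 : f1 w = 0 := by
      rw [hf1]; exact indicator_of_notMem hwn _
    have h5 : f2 w = 0 := by
      rw [hf2]; exact indicator_of_notMem hwn _
    rw [h4, h5, add_zero, mul_zero, mul_zero, add_zero, mul_comm T]
    exact mul_le_mul_of_nonneg_left h3 hg
  · have hwm : w ∈ (Ioo (-μ) μ)ᶜ := fun h => hwμ (abs_lt.2 h)
    have h6 : f1 w = 2 * |w| * (g1 a w * rexp (-(w * κ))) := by
      rw [hf1]; exact indicator_of_mem hwm _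
    have h7 : f2 w = 2 * |w| * (g1 a w * rexp (-(w * -κ))) := by
      rw [hf2]; exact indicator_of_mem hwm _
    rw [h6, h7]
    push Not at hwμ
    have h1 : |DJ κ φ P q J w - B * rexp (-(κ * (P + w * sin φ)))| ≤ B + B * rexp (κ * |w|) := by
      have a1 : rexp (-(κ * |P + w * sin φ|)) ≤ 1 := Real.exp_le_one_iff.2 (by
        have := mul_nonneg hκ.le (abs_nonneg (P + w * sin φ)); linarith)
      have a2 : DJ κ φ P q J w ≤ B := hD1.trans (by
        have := mul_le_mul_of_nonneg_left a1 hB0.le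
        linarith)
      have a3 : rexp (-(κ * (P + w * sin φ))) ≤ rexp (κ * |w|) := by
        apply exp_le_exp.2
        have b1 : -(w * sin φ) ≤ |w| := by
          have c1 : |w * sin φ| ≤ |w| := by
            rw [abs_mul]
            calc |w| * |sin φ| ≤ |w| * 1 := mul_le_mul_of_nonneg_left hs1 (abs_nonneg _)
              _ = |w| := mul_one _
          have := neg_abs_le (w * sin φ)
          linarith
        have b2 := mul_le_mul_of_nonneg_left b1 hκ.le
        have b3 := mul_pos hκ hP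
        have e : -(κ * (P + w * sin φ)) = -(κ * P) + κ * -(w * sin φ) := by ring
        rw [e]
        linarith
      have a4 := mul_le_mul_of_nonneg_left a3 hB0.le
      have a5 : 0 < B * rexp (-(κ * (P + w * sin φ))) := by positivity
      rw [abs_le]
      constructor <;> linarith
    have h2 : 1 ≤ rexp (κ * |w|) := Real.one_le_exp (by positivity)
    have h3 : rexp (κ * |w|) ≤ rexp (-(w * κ)) + rexp (-(w * -κ)) := by
      rcases abs_choice w with h | h
      · have : rexp (κ * |w|) = rexp (-(w * -κ)) := by rw [h]; congr 1; ring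
        rw [this]
        linarith [exp_pos (-(w * κ))]
      · have : rexp (κ * |w|) = rexp (-(w * κ)) := by rw [h]; congr 1; ring
        rw [this]
        linarith [exp_pos (-(w * -κ))]
    have h4 : |DJ κ φ P q J w - B * rexp (-(κ * (P + w * sin φ)))| ≤
        B * (2 * (rexp (-(w * κ)) + rexp (-(w * -κ)))) := by
      refine h1.trans ?_
      nlinarith only [hB0, h2, h3]
    have h5 : (1 : ℝ) ≤ 1 / μ * |w| := by
      rw [one_div, inv_mul_eq_div, le_div_iff₀ hμ]
      linarith
    set X := rexp (-(w * κ)) + rexp (-(w * -κ)) with hX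
    have hX0 : 0 < X := by positivity
    calc g1 a w * |DJ κ φ P q J w - B * rexp (-(κ * (P + w * sin φ)))|
        ≤ g1 a w * (B * (2 * X)) := mul_le_mul_of_nonneg_left h4 hg
      _ ≤ (g1 a w * (B * (2 * X))) * (1 / μ * |w|) := by
          have : 0 ≤ g1 a w * (B * (2 * X)) := by positivity
          nlinarith only [h5, this]
      _ = B * (1 / μ * (2 * |w| * (g1 a w * rexp (-(w * κ))) +
            2 * |w| * (g1 a w * rexp (-(w * -κ))))) := by rw [hX]; ring
      _ ≤ _ := by
          have : 0 ≤ T * g1 a w := mul_nonneg hT0 hg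
          linarith

/-! ### The tails outside the window -/

/-- bound for the tails -/
noncomputable def TT (κ φ P q μ ζ1 ζ2 β1 β2 : ℝ) : ℝ :=
  CE / 2 * (rexp (-(κ * ((P - μ) * cos β1 - |q| - μ)))
      * (rexp (-(2 * κ * cos φ * sin β1 * (ζ1 - μ))) / (2 * κ * cos φ * sin β1))
    + rexp (-(κ * ((P - μ) * cos β2 - |q| - μ)))
      * (rexp (-(2 * κ * cos φ * sin β2 * (ζ2 - μ))) / (2 * κ * cos φ * sin β2)))

theorem cs_le (p Q β : ℝ) : p * cos β + Q * sin β ≤ √(p ^ 2 + Q ^ 2) := by
  apply Real.le_sqrt_of_sq_le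
  have := Real.sin_sq_add_cos_sq β
  nlinarith only [this, sq_nonneg (p * sin β - Q * cos β)]

theorem tail_est {κ φ P q μ ζ1 ζ2 β1 β2 w : ℝ} (hκ : 0 < κ) (hφ : 0 < cos φ) (hμP : μ ≤ P)
    (hβ1 : 0 < β1) (hβ1' : β1 < π / 2) (hβ2 : 0 < β2) (hβ2' : β2 < π / 2)
    (hz1 : μ ≤ ζ1) (hz2 : μ ≤ ζ2) (h1 : 1 ≤ κ * ((P - μ) * cos β1 - |q| - μ))
    (h2 : 1 ≤ κ * ((P - μ) * cos β2 - |q| - μ)) (hw : |w| < μ) :
    ∫ s, (1 - (Jw ζ1 ζ2).indicator (fun _ => (1 : ℝ)) (w + s, s)) * kt κ φ P q w s
      ≤ TT κ φ P q μ ζ1 ζ2 β1 β2 := by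
  have hs1 := Real.abs_sin_le_one φ
  have hc1 := Real.cos_le_one φ
  have hsb1 : 0 < sin β1 := sin_pos_of_pos_of_lt_pi hβ1 (by linarith [pi_pos])
  have hsb2 : 0 < sin β2 := sin_pos_of_pos_of_lt_pi hβ2 (by linarith [pi_pos])
  have hcb1 : 0 < cos β1 := cos_pos_of_mem_Ioo ⟨by linarith [pi_pos], hβ1'⟩
  have hcb2 : 0 < cos β2 := cos_pos_of_mem_Ioo ⟨by linarith only [hβ2, pi_pos], hβ2'⟩
  have hsb1' := Real.sin_le_one β1
  have hsb2' := Real.sin_le_one β2
  have hb1 : 0 < 2 * κ * cos φ * sin β1 := by positivity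
  have hb2 : 0 < 2 * κ * cos φ * sin β2 := by positivity
  set b1 := 2 * κ * cos φ * sin β1 with hb1d
  set b2 := 2 * κ * cos φ * sin β2 with hb2d
  set A1 := rexp (-(κ * ((P - μ) * cos β1 - |q| - μ))) with hA1
  set A2 := rexp (-(κ * ((P - μ) * cos β2 - |q| - μ))) with hA2
  have hCE := CE_nonneg
  have hμ : 0 < μ := lt_of_le_of_lt (abs_nonneg w) hw
  have hint : Integrable fun s => CE / 2 * (A1 * top b1 (ζ1 - μ) s + A2 * bot b2 (ζ2 - μ) s) :=
    (((int_top hb1 _).const_mul A1).add ((int_bot hb2 _).const_mul A2)).const_mul (CE / 2)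
  have hval : ∫ s, CE / 2 * (A1 * top b1 (ζ1 - μ) s + A2 * bot b2 (ζ2 - μ) s)
      = TT κ φ P q μ ζ1 ζ2 β1 β2 := by
    rw [integral_const_mul, integral_add ((int_top hb1 _).const_mul A1)
      ((int_bot hb2 _).const_mul A2), integral_const_mul, integral_const_mul, integral_top hb1,
      integral_bot hb2]
    rfl
  rw [← hval]
  have hp : P - μ ≤ P + w * sin φ := by
    have c1 : |w * sin φ| ≤ |w| := by
      rw [abs_mul]
      calc |w| * |sin φ| ≤ |w| * 1 := mul_le_mul_of_nonneg_left hs1 (abs_nonneg _)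
        _ = |w| := mul_one _
    have := neg_abs_le (w * sin φ)
    linarith
  have hwc : |w * cos φ| ≤ μ := by
    rw [abs_mul, abs_of_pos hφ]
    calc |w| * cos φ ≤ |w| * 1 := mul_le_mul_of_nonneg_left hc1 (abs_nonneg _)
      _ ≤ μ := by rw [mul_one]; exact hw.le
  refine integral_mono_of_nonneg (Eventually.of_forall fun s => ?_) hint
    (Eventually.of_forall fun s => ?_)
  · refine mul_nonneg ?_ (kt_nonneg _ _ _ _ _ _)
    by_cases h : (w + s, s) ∈ Jw ζ1 ζ2
    · rw [indicator_of_mem h]; norm_num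
    · rw [indicator_of_notMem h]; norm_num
  · simp only
    have ht := top_nonneg b1 (ζ1 - μ) s
    have hbt := bot_nonneg b2 (ζ2 - μ) s
    by_cases h : (w + s, s) ∈ Jw ζ1 ζ2
    · rw [indicator_of_mem h, sub_self, zero_mul]
      positivity
    · rw [indicator_of_notMem h, sub_zero, one_mul]
      have hnw := not_window h (μ := μ) (by
        simp only [add_sub_cancel_right]
        exact hw.le)
      rcases hnw with ⟨-, h3⟩ | ⟨-, h3⟩
      · simp only at h3
        have hs0 : 0 ≤ s := by linarith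
        have e1 : top b1 (ζ1 - μ) s = rexp (-(b1 * s)) := by
          unfold top
          exact indicator_of_mem (show s ∈ Ici (ζ1 - μ) from h3) _
        have h4 : κ * ((P - μ) * cos β1 - |q| - μ) + b1 * s ≤
            κ * √((P + w * sin φ) ^ 2 + ((q + w * cos φ) + 2 * cos φ * s) ^ 2) := by
          have c0 := cs_le (P + w * sin φ) ((q + w * cos φ) + 2 * cos φ * s) β1
          have c1 : (P - μ) * cos β1 ≤ (P + w * sin φ) * cos β1 :=
            mul_le_mul_of_nonneg_right hp hcb1.le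
          have c2 : -(|q| + μ) ≤ (q + w * cos φ) * sin β1 := by
            have d1 : |q + w * cos φ| ≤ |q| + μ := (abs_add_le _ _).trans (by linarith)
            have d2 : |(q + w * cos φ) * sin β1| ≤ |q + w * cos φ| := by
              rw [abs_mul, abs_of_pos hsb1]
              calc |q + w * cos φ| * sin β1 ≤ |q + w * cos φ| * 1 :=
                    mul_le_mul_of_nonneg_left hsb1' (abs_nonneg _)
                _ = _ := mul_one _
            have := neg_abs_le ((q + w * cos φ) * sin β1)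
            linarith
          have c3 : (P - μ) * cos β1 - |q| - μ + 2 * cos φ * sin β1 * s ≤
              √((P + w * sin φ) ^ 2 + ((q + w * cos φ) + 2 * cos φ * s) ^ 2) := by
            refine le_trans ?_ c0
            have e : ((q + w * cos φ) + 2 * cos φ * s) * sin β1
                = (q + w * cos φ) * sin β1 + 2 * cos φ * sin β1 * s := by ring
            rw [e]
            linarith
          have := mul_le_mul_of_nonneg_left c3 hκ.le
          rw [hb1d]
          linarith
        have h5 : 1 ≤ κ * ((P - μ) * cos β1 - |q| - μ) + b1 * s := by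
          have := mul_nonneg hb1.le hs0
          linarith
        have h6 := kit0_le h5 h4
        have e2 : rexp (-(κ * ((P - μ) * cos β1 - |q| - μ) + b1 * s)) = A1 * rexp (-(b1 * s)) := by
          rw [hA1, ← Real.exp_add]; congr 1; ring
        rw [e2] at h6
        rw [e1]
        have h7 : 0 ≤ CE / 2 * (A2 * bot b2 (ζ2 - μ) s) := by positivity
        unfold kt
        linarith only [h6, h7]
      · simp only at h3
        have hs0 : s ≤ 0 := by linarith
        have e1 : bot b2 (ζ2 - μ) s = rexp (b2 * s) := by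
          unfold bot
          exact indicator_of_mem (show s ∈ Iic (-(ζ2 - μ)) from h3) _
        have h4 : κ * ((P - μ) * cos β2 - |q| - μ) + b2 * (-s) ≤
            κ * √((P + w * sin φ) ^ 2 + ((q + w * cos φ) + 2 * cos φ * s) ^ 2) := by
          have c0 := cs_le (P + w * sin φ) ((q + w * cos φ) + 2 * cos φ * s) (-β2)
          rw [cos_neg, sin_neg] at c0
          have c1 : (P - μ) * cos β2 ≤ (P + w * sin φ) * cos β2 :=
            mul_le_mul_of_nonneg_right hp hcb2.le
          have c2 : (q + w * cos φ) * sin β2 ≤ |q| + μ := by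
            have d1 : |q + w * cos φ| ≤ |q| + μ := (abs_add_le _ _).trans (by linarith)
            have d2 : |(q + w * cos φ) * sin β2| ≤ |q + w * cos φ| := by
              rw [abs_mul, abs_of_pos hsb2]
              calc |q + w * cos φ| * sin β2 ≤ |q + w * cos φ| * 1 :=
                    mul_le_mul_of_nonneg_left hsb2' (abs_nonneg _)
                _ = _ := mul_one _
            have := le_abs_self ((q + w * cos φ) * sin β2)
            linarith
          have c3 : (P - μ) * cos β2 - |q| - μ + 2 * cos φ * sin β2 * (-s) ≤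
              √((P + w * sin φ) ^ 2 + ((q + w * cos φ) + 2 * cos φ * s) ^ 2) := by
            refine le_trans ?_ c0
            have e : ((q + w * cos φ) + 2 * cos φ * s) * -sin β2
                = -((q + w * cos φ) * sin β2) + 2 * cos φ * sin β2 * (-s) := by ring
            rw [e]
            linarith
          have := mul_le_mul_of_nonneg_left c3 hκ.le
          rw [hb2d]
          linarith
        have h5 : 1 ≤ κ * ((P - μ) * cos β2 - |q| - μ) + b2 * (-s) := by
          have := mul_nonneg hb2.le (neg_nonneg.2 hs0)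
          linarith
        have h6 := kit0_le h5 h4
        have e2 : rexp (-(κ * ((P - μ) * cos β2 - |q| - μ) + b2 * (-s))) = A2 * rexp (b2 * s) := by
          rw [hA2, ← Real.exp_add]; congr 1; ring
        rw [e2] at h6
        rw [e1]
        have h7 : 0 ≤ CE / 2 * (A1 * top b1 (ζ1 - μ) s) := by positivity
        unfold kt
        linarith

theorem TT_nonneg {κ φ P q μ ζ1 ζ2 β1 β2 : ℝ} (hκ : 0 < κ) (hφ : 0 < cos φ)
    (hβ1 : 0 < β1) (hβ1' : β1 < π / 2) (hβ2 : 0 < β2) (hβ2' : β2 < π / 2) :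
    0 ≤ TT κ φ P q μ ζ1 ζ2 β1 β2 := by
  have hsb1 : 0 < sin β1 := sin_pos_of_pos_of_lt_pi hβ1 (by linarith only [hβ1', pi_pos])
  have hsb2 : 0 < sin β2 := sin_pos_of_pos_of_lt_pi hβ2 (by linarith [pi_pos])
  have := CE_nonneg
  unfold TT
  positivity

end Pool.Agent.AEU.H12F.H25
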