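import Pool.Agent.Helper25_AEU3.Img1

/-!
helper25, AEU (MP_5b0138_an), Part III, IMG: four real variables and two complex variables.
-/

set_option autoImplicit false

namespace Pool.Agent.AEU.H12F.H25

open MeasureTheory Filter Topology Real Set Pool.Agent.AEU.H12

/-! ### The equivalence -/

/-- pairs of real parts and imaginary parts to pairs of complex numbers -/
noncomputable def e4 : (ℝ × ℝ) × (ℝ × ℝ) ≃ᵐ ℂ × ℂ :=
  ({ toEquiv := Equiv.prodProdProdComm ℝ ℝ ℝ ℝ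
     measurable_toFun := by
      show Measurable fun z : (ℝ × ℝ) × (ℝ × ℝ) => ((z.1.1, z.2.1), (z.1.2, z.2.2))
      fun_prop
     measurable_invFun := by
      show Measurable fun z : (ℝ × ℝ) × (ℝ × ℝ) => ((z.1.1, z.2.1), (z.1.2, z.2.2))
      fun_prop } : (ℝ × ℝ) × (ℝ × ℝ) ≃ᵐ (ℝ × ℝ) × (ℝ × ℝ)).trans
    (MeasurableEquiv.prodCongr Complex.measurableEquivRealProd.symm
      Complex.measurableEquivRealProd.symm)

theorem e4_apply (z : (ℝ × ℝ) × (ℝ × ℝ)) :
    e4 z = ((⟨z.1.1, z.2.1⟩ : ℂ), (⟨z.1.2, z.2.2⟩ : ℂ)) := rfl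

theorem comm_mp : MeasurePreserving
    (fun z : (ℝ × ℝ) × (ℝ × ℝ) => (((z.1.1, z.2.1), (z.1.2, z.2.2)) : (ℝ × ℝ) × (ℝ × ℝ)))
    volume volume := by
  have h1 : MeasurePreserving (MeasurableEquiv.prodAssoc : (ℝ × ℝ) × (ℝ × ℝ) ≃ᵐ ℝ × ℝ × (ℝ × ℝ))
      volume volume := volume_preserving_prodAssoc
  have h2 : MeasurePreserving (MeasurableEquiv.prodAssoc : (ℝ × ℝ) × ℝ ≃ᵐ ℝ × ℝ × ℝ)
      volume volume := volume_preserving_prodAssoc
  have h3 : MeasurePreserving (Prod.swap : ℝ × ℝ → ℝ × ℝ) volume volume :=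
    Measure.measurePreserving_swap
  have h4 : MeasurePreserving (Prod.map (Prod.swap : ℝ × ℝ → ℝ × ℝ) (id : ℝ → ℝ)) volume volume :=
    h3.prod (MeasurePreserving.id (volume : Measure ℝ))
  have h5 : MeasurePreserving (fun y : ℝ × (ℝ × ℝ) => ((y.2.1, (y.1, y.2.2)) : ℝ × (ℝ × ℝ)))
      volume volume :=
    (h2.comp h4).comp (h2.symm MeasurableEquiv.prodAssoc)
  have h6 : MeasurePreserving (Prod.map (id : ℝ → ℝ)
      (fun y : ℝ × (ℝ × ℝ) => ((y.2.1, (y.1, y.2.2)) : ℝ × (ℝ × ℝ)))) volume volume :=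
    (MeasurePreserving.id (volume : Measure ℝ)).prod h5
  exact ((h1.symm MeasurableEquiv.prodAssoc).comp h6).comp h1

theorem e4_mp : MeasurePreserving e4 volume volume := by
  have h1 : MeasurePreserving (Complex.measurableEquivRealProd.symm : ℝ × ℝ → ℂ) volume volume :=
    Complex.volume_preserving_equiv_real_prod.symm _
  have h2 : MeasurePreserving (Prod.map (Complex.measurableEquivRealProd.symm : ℝ × ℝ → ℂ)
      (Complex.measurableEquivRealProd.symm : ℝ × ℝ → ℂ)) volume volume := h1.prod h1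
  exact h2.comp comm_mp

end Pool.Agent.AEU.H12F.H25
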