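import Pool.Agent.Helper25_AEU3.Img2

/-!
helper25, AEU (MP_5b0138_an), Part III, IMG: one image kernel.
-/

set_option autoImplicit false

namespace Pool.Agent.AEU.H12F.H25

open MeasureTheory Filter Topology Real Set Pool.Agent.AEU.H12

noncomputable def Pf (φ d : ℝ) (q : ℝ × ℝ) : ℝ := cos φ * (2 * d + q.1 - q.2)

noncomputable def qf (φ d : ℝ) (q : ℝ × ℝ) : ℝ := sin φ * (2 * d - q.1 - q.2)

/-- the integrand -/
noncomputable def K4 (κ φ d a X0 : ℝ) (z : (ℝ × ℝ) × (ℝ × ℝ)) : ℝ :=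
  g1 a (z.1.1 - z.1.2) * (chi X0 z.1.2 - chi X0 z.1.1) *
    (g1 a (z.2.1 - z.2.2) * kt κ φ (Pf φ d z.1) (qf φ d z.1) (z.2.1 - z.2.2) z.2.2)

theorem K4_meas (κ φ d a X0 : ℝ) : Measurable (K4 κ φ d a X0) := by
  unfold K4
  have h1 : Measurable fun z : (ℝ × ℝ) × (ℝ × ℝ) => g1 a (z.1.1 - z.1.2) :=
    (g1_meas a).comp (by fun_prop)
  have h2 : Measurable fun z : (ℝ × ℝ) × (ℝ × ℝ) => g1 a (z.2.1 - z.2.2) :=
    (g1_meas a).comp (by fun_prop)
  have h3 : Measurable fun z : (ℝ × ℝ) × (ℝ × ℝ) => chi X0 z.1.2 :=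
    (chi_meas X0).comp (by fun_prop)
  have h4 : Measurable fun z : (ℝ × ℝ) × (ℝ × ℝ) => chi X0 z.1.1 :=
    (chi_meas X0).comp (by fun_prop)
  have h5 : Measurable fun z : (ℝ × ℝ) × (ℝ × ℝ) =>
      kt κ φ (Pf φ d z.1) (qf φ d z.1) (z.2.1 - z.2.2) z.2.2 := by
    unfold kt Pf qf
    apply kit0_meas.comp
    fun_prop
  exact (h1.mul (h3.sub h4)).mul (h2.mul h5)

theorem HJ_le {κ φ P q a : ℝ} (hκ : 0 < κ) (ha : 0 < a) (hφ : 0 < cos φ) (hP : 0 < P)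
    {J : Set (ℝ × ℝ)} (hJ : MeasurableSet J) : HJ κ φ P q a J ≤ π / (2 * κ * cos φ) := by
  obtain ⟨hH, hHi⟩ := HJ_eq hκ ha hφ hP hJ (q := q)
  set B : ℝ := π / (2 * κ * cos φ) with hB
  have hB0 : 0 < B := by positivity
  rw [hH]
  have h1 : ∫ w, g1 a w * B = B := by
    rw [integral_mul_const, integral_g1 ha, one_mul]
  rw [← h1]
  refine integral_mono_ae hHi ((int_g1 ha).mul_const B) ?_
  filter_upwards [ae_ne (φ := φ) hP] with w hw
  obtain ⟨hk1, hk2⟩ := kt_line (q := q) hκ hφ hw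
  refine mul_le_mul_of_nonneg_left ?_ (g1_nonneg a w)
  have a1 : rexp (-(κ * |P + w * sin φ|)) ≤ 1 := Real.exp_le_one_iff.2 (by
    have := mul_nonneg hκ.le (abs_nonneg (P + w * sin φ)); linarith)
  have a2 : B * rexp (-(κ * |P + w * sin φ|)) ≤ B := by
    have := mul_le_mul_of_nonneg_left a1 hB0.le
    linarith
  refine le_trans ?_ a2
  rw [← hk2]
  unfold DJ
  refine integral_mono_of_nonneg (Eventually.of_forall fun s => ?_) hk1
    (Eventually.of_forall fun s => ?_)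
  · refine mul_nonneg ?_ (kt_nonneg _ _ _ _ _ _)
    exact indicator_nonneg (fun _ _ => zero_le_one) _
  · have : J.indicator (fun _ => (1 : ℝ)) (w + s, s) ≤ 1 := by
      by_cases h : (w + s, s) ∈ J
      · rw [indicator_of_mem h]
      · rw [indicator_of_notMem h]; norm_num
    have := mul_le_mul_of_nonneg_right this (kt_nonneg κ φ P q w s)
    simp only
    linarith

theorem HJ_nonneg {κ φ P q a : ℝ} {J : Set (ℝ × ℝ)} : 0 ≤ HJ κ φ P q a J :=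
  integral_nonneg fun r => mul_nonneg (g1_nonneg _ _) (kt_nonneg _ _ _ _ _ _)

theorem Pf_ge {φ d δ : ℝ} (hφ : 0 < cos φ) {q : ℝ × ℝ} (hq : q ∈ Iq (d - 2 * δ) δ) :
    cos φ * (2 * d - 2 * δ) ≤ Pf φ d q := by
  obtain ⟨⟨h1, h2⟩, h3, h4⟩ := hq
  unfold Pf
  apply mul_le_mul_of_nonneg_left _ hφ.le
  linarith

theorem qf_le {φ d δ : ℝ} {q : ℝ × ℝ} (hq : q ∈ Iq (d - 2 * δ) δ) : |qf φ d q| ≤ 6 * δ := by
  obtain ⟨⟨h1, h2⟩, h3, h4⟩ := hq
  unfold qf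
  rw [abs_mul]
  have h5 : |2 * d - q.1 - q.2| ≤ 6 * δ := by
    rw [abs_le]
    constructor <;> linarith
  calc |sin φ| * |2 * d - q.1 - q.2| ≤ 1 * (6 * δ) := by
        have := Real.abs_sin_le_one φ
        gcongr
    _ = _ := one_mul _

theorem K4_int {κ φ d a δ ζ1 ζ2 : ℝ} (hκ : 0 < κ) (ha : 0 < a) (hφ : 0 < cos φ) (hδ : δ < d) :
    IntegrableOn (K4 κ φ d a (d - 2 * δ)) (Iq (d - 2 * δ) δ ×ˢ Jw ζ1 ζ2) := by
  set X0 := d - 2 * δ with hX0
  set B : ℝ := π / (2 * κ * cos φ) with hB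
  have hB0 : 0 < B := by positivity
  have hm := K4_meas κ φ d a X0
  unfold IntegrableOn
  rw [Measure.volume_eq_prod, ← Measure.prod_restrict, integrable_prod_iff hm.aestronglyMeasurable]
  have hPpos : ∀ q ∈ Iq X0 δ, 0 < Pf φ d q := by
    intro q hq
    exact lt_of_lt_of_le (mul_pos hφ (by linarith)) (Pf_ge hφ hq)
  constructor
  · rw [ae_restrict_iff' (Iq_meas X0 δ)]
    refine Eventually.of_forall fun q hq => ?_
    have h0 := ((HJ_int hκ ha hφ (hPpos q hq) (q := qf φ d q)).integrableOn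
      (s := Jw ζ1 ζ2)).const_mul (g1 a (q.1 - q.2) * (chi X0 q.2 - chi X0 q.1))
    exact h0
  · have hc : IntegrableOn (fun _ : ℝ × ℝ => (√(4 * π * a))⁻¹ * B) (Iq X0 δ) :=
      integrableOn_const (Iq_vol X0 δ)
    have hm2 : AEStronglyMeasurable (fun q : ℝ × ℝ => ∫ r in Jw ζ1 ζ2, ‖K4 κ φ d a X0 (q, r)‖)
        (volume.restrict (Iq X0 δ)) :=
      (hm.norm.stronglyMeasurable.integral_prod_right (ν := volume.restrict (Jw ζ1 ζ2))).aestronglyMeasurable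
    refine hc.mono' hm2 ?_
    rw [ae_restrict_iff' (Iq_meas X0 δ)]
    refine Eventually.of_forall fun q hq => ?_
    have h1 : ∀ r : ℝ × ℝ, ‖K4 κ φ d a X0 (q, r)‖ = |g1 a (q.1 - q.2) * (chi X0 q.2 - chi X0 q.1)| *
        (g1 a (r.1 - r.2) * kt κ φ (Pf φ d q) (qf φ d q) (r.1 - r.2) r.2) := by
      intro r
      unfold K4
      rw [norm_mul, Real.norm_eq_abs, Real.norm_of_nonneg (mul_nonneg (g1_nonneg _ _)
        (kt_nonneg _ _ _ _ _ _))]
    simp_rw [h1]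
    rw [integral_const_mul]
    have h2 : 0 ≤ ∫ r in Jw ζ1 ζ2, g1 a (r.1 - r.2) *
        kt κ φ (Pf φ d q) (qf φ d q) (r.1 - r.2) r.2 := HJ_nonneg
    have h3 : ∫ r in Jw ζ1 ζ2, g1 a (r.1 - r.2) *
        kt κ φ (Pf φ d q) (qf φ d q) (r.1 - r.2) r.2 ≤ B :=
      HJ_le hκ ha hφ (hPpos q hq) (Jw_meas ζ1 ζ2)
    rw [Real.norm_of_nonneg (mul_nonneg (abs_nonneg _) h2)]
    have h4 : |g1 a (q.1 - q.2) * (chi X0 q.2 - chi X0 q.1)| ≤ (√(4 * π * a))⁻¹ := by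
      rw [abs_mul, abs_of_nonneg (g1_nonneg _ _)]
      calc g1 a (q.1 - q.2) * |chi X0 q.2 - chi X0 q.1| ≤ (√(4 * π * a))⁻¹ * 1 :=
            mul_le_mul (g1_le ha _) (chi_sub_le X0 _ _) (abs_nonneg _) (by positivity)
        _ = _ := mul_one _
    exact mul_le_mul h4 h3 h2 (by positivity)

theorem IW_eq {κ φ d a δ ζ1 ζ2 : ℝ} (hκ : 0 < κ) (ha : 0 < a) (hφ : 0 < cos φ) (hδ : δ < d) :
    ∫ z in Iq (d - 2 * δ) δ ×ˢ Jw ζ1 ζ2, K4 κ φ d a (d - 2 * δ) z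
      = ∫ q in Iq (d - 2 * δ) δ, g1 a (q.1 - q.2) * (chi (d - 2 * δ) q.2 - chi (d - 2 * δ) q.1) *
          HJ κ φ (Pf φ d q) (qf φ d q) a (Jw ζ1 ζ2) ∧
    IntegrableOn (fun q : ℝ × ℝ => g1 a (q.1 - q.2) *
      (chi (d - 2 * δ) q.2 - chi (d - 2 * δ) q.1) *
          HJ κ φ (Pf φ d q) (qf φ d q) a (Jw ζ1 ζ2)) (Iq (d - 2 * δ) δ) := by
  set X0 := d - 2 * δ with hX0
  have hi := K4_int (ζ1 := ζ1) (ζ2 := ζ2) hκ ha hφ hδ
  rw [← hX0] at hi
  have e : ∀ q : ℝ × ℝ, ∫ r in Jw ζ1 ζ2, K4 κ φ d a X0 (q, r) =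
      g1 a (q.1 - q.2) * (chi X0 q.2 - chi X0 q.1) *
          HJ κ φ (Pf φ d q) (qf φ d q) a (Jw ζ1 ζ2) := by
    intro q
    unfold K4 HJ
    simp only
    rw [integral_const_mul]
  constructor
  · rw [Measure.volume_eq_prod, setIntegral_prod _ (by rw [← Measure.volume_eq_prod]; exact hi)]
    refine integral_congr_ae (Eventually.of_forall fun q => ?_)
    exact e q
  · unfold IntegrableOn at hi ⊢
    rw [Measure.volume_eq_prod, ← Measure.prod_restrict] at hi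
    exact hi.integral_prod_left.congr (Eventually.of_forall fun q => e q)

theorem g1_sq {a X0 δ : ℝ} (ha : 0 < a) (hδ : 0 < δ) :
    IntegrableOn (fun q : ℝ × ℝ => g1 a (q.1 - q.2)) (Iq X0 δ) ∧
    ∫ q in Iq X0 δ, g1 a (q.1 - q.2) ≤ 2 * δ := by
  have hc : Continuous fun q : ℝ × ℝ => g1 a (q.1 - q.2) := (continuous_g1 a).comp (by fun_prop)
  have hi : IntegrableOn (fun q : ℝ × ℝ => g1 a (q.1 - q.2)) (Iq X0 δ) := by
    have h1 : IntegrableOn (fun _ : ℝ × ℝ => (√(4 * π * a))⁻¹) (Iq X0 δ) :=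
      integrableOn_const (Iq_vol X0 δ)
    refine h1.mono' hc.aestronglyMeasurable (Eventually.of_forall fun q => ?_)
    rw [Real.norm_of_nonneg (g1_nonneg _ _)]
    exact g1_le ha _
  refine ⟨hi, ?_⟩
  unfold Iq at hi ⊢
  rw [Measure.volume_eq_prod, setIntegral_prod _ (by rw [← Measure.volume_eq_prod]; exact hi)]
  have h2 : ∀ x : ℝ, ∫ y in Ioo (X0 - δ) (X0 + δ), g1 a (x - y) ≤ 1 := by
    intro x
    have h3 : Integrable fun y => g1 a (x - y) := (int_g1 ha).comp_sub_left x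
    calc ∫ y in Ioo (X0 - δ) (X0 + δ), g1 a (x - y) ≤ ∫ y, g1 a (x - y) :=
          setIntegral_le_integral h3 (Eventually.of_forall fun y => g1_nonneg _ _)
      _ = 1 := by rw [integral_sub_left_eq_self (fun y => g1 a y) volume x, integral_g1 ha]
  have h4 : ∫ x in Ioo (X0 - δ) (X0 + δ), ∫ y in Ioo (X0 - δ) (X0 + δ), g1 a (x - y) ≤
      ∫ x in Ioo (X0 - δ) (X0 + δ), (1 : ℝ) := by
    refine integral_mono_of_nonneg (Eventually.of_forall fun x => ?_)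
      (integrableOn_const (by rw [Real.volume_Ioo]; exact ENNReal.ofReal_ne_top))
      (Eventually.of_forall fun x => h2 x)
    exact integral_nonneg fun y => g1_nonneg _ _
  refine h4.trans (le_of_eq ?_)
  rw [setIntegral_const]
  simp only [smul_eq_mul, mul_one, Measure.real, Real.volume_Ioo]
  rw [ENNReal.toReal_ofReal (by linarith)]
  ring

end Pool.Agent.AEU.H12F.H25
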