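import Pool.Agent.Helper60_AEU.Stmt
import Pool.Agent.Helper8_Fine.Area
import Pool.Agent.Helper60_TRI.Heat

/-!
helper25, AEU (MP_5b0138_an), Part III, VEX: the mass of the loops which visit the labels in `M`
and none in `E` is the expectation of an area.
-/

set_option autoImplicit false

namespace Pool.Agent.H60K.H25

open MeasureTheory Complex Filter Topology ProbabilityTheory Pool.Agent.H16Iso Pool.Agent.H62T
  Pool.Agent.H16F Pool.Agent.H38KL
open scoped ENNReal NNReal

/-- the open half-plane number `s` -/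
def Hs (u : Fin 3 → ℂ) (h : Fin 3 → ℝ) (s : Fin 3) : Set ℂ := {x | ip (u s) x < h s}

theorem ip_cont (a : ℂ) : Continuous fun x : ℂ => ip a x := by
  unfold ip
  fun_prop

theorem isOpen_Hs (u : Fin 3 → ℂ) (h : Fin 3 → ℝ) (s : Fin 3) : IsOpen (Hs u h s) :=
  isOpen_lt (ip_cont _) continuous_const

theorem Dm_eq (u : Fin 3 → ℂ) (h : Fin 3 → ℝ) (B : Finset (Fin 3)) :
    Dm u h B = ⋂ s ∈ B, Hs u h s := by
  ext x
  simp [Dm, Hs]

theorem isOpen_Dm (u : Fin 3 → ℂ) (h : Fin 3 → ℝ) (B : Finset (Fin 3)) : IsOpen (Dm u h B) := by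
  rw [Dm_eq]
  exact isOpen_biInter_finset fun s _ => isOpen_Hs u h s

theorem mem_AE_Dm (u : Fin 3 → ℂ) (h : Fin 3 → ℝ) (B : Finset (Fin 3)) (t : ℝ) (x : ℂ) (ω : Sp) :
    ω ∈ H8.AE (Dm u h B) t x ↔ ∀ s ∈ B, ω ∈ H8.AE (Hs u h s) t x := by
  constructor
  · intro hω s hs m k hk
    exact hω m k hk s hs
  · intro hω m k hk s hs
    exact hω s hs m k hk

/-- the loop started at `x` visits the labels in `M` and none in `E` -/
def SS (u : Fin 3 → ℂ) (h : Fin 3 → ℝ) (M E : Finset (Fin 3)) (t : ℝ) (x : ℂ) : Set Sp :=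
  {ω | (∀ s ∈ M, ω ∉ H8.AE (Hs u h s) t x) ∧ ∀ s ∈ E, ω ∈ H8.AE (Hs u h s) t x}

theorem measurableSet_SS2 (u : Fin 3 → ℂ) (h : Fin 3 → ℝ) (M E : Finset (Fin 3)) (t : ℝ) :
    MeasurableSet {p : ℂ × Sp | p.2 ∈ SS u h M E t p.1} := by
  have e : {p : ℂ × Sp | p.2 ∈ SS u h M E t p.1} =
      (⋂ s ∈ M, {p : ℂ × Sp | p.2 ∈ H8.AE (Hs u h s) t p.1}ᶜ) ∩
        ⋂ s ∈ E, {p : ℂ × Sp | p.2 ∈ H8.AE (Hs u h s) t p.1} := by
    ext p
    simp [SS]
  rw [e]
  exact (MeasurableSet.biInter M.countable_toSet fun s _ =>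
    (H8.measurableSet_AE2 (isOpen_Hs u h s) t).compl).inter
    (MeasurableSet.biInter E.countable_toSet fun s _ => H8.measurableSet_AE2 (isOpen_Hs u h s) t)

open Classical in
/-- pointwise inclusion and exclusion -/
theorem incl_excl (a : Fin 3 → Prop) (M E : Finset (Fin 3)) :
    ∑ B ∈ M.powerset, (-1 : ℝ) ^ B.card * (if ∀ s ∈ E ∪ B, a s then 1 else 0)
      = if (∀ s ∈ M, ¬ a s) ∧ ∀ s ∈ E, a s then 1 else 0 := by
  by_cases hE : ∀ s ∈ E, a s
  · have h1 : ∀ B ∈ M.powerset, (-1 : ℝ) ^ B.card * (if ∀ s ∈ E ∪ B, a s then 1 else 0)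
        = (∏ s ∈ B, -(if a s then (1 : ℝ) else 0)) * ∏ s ∈ M \ B, (1 : ℝ) := by
      intro B _
      rw [Finset.prod_const_one, mul_one, Finset.prod_neg]
      congr 1
      by_cases hB : ∀ s ∈ B, a s
      · rw [if_pos, Finset.prod_eq_one]
        · intro s hs; rw [if_pos (hB s hs)]
        · intro s hs
          rcases Finset.mem_union.1 hs with h | h
          · exact hE s h
          · exact hB s h
      · rw [if_neg]
        · push Not at hB
          obtain ⟨s, hs, hs'⟩ := hB
          rw [Finset.prod_eq_zero hs]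
          rw [if_neg hs']
        · intro hc
          exact hB fun s hs => hc s (Finset.mem_union_right _ hs)
    rw [Finset.sum_congr rfl h1, ← Finset.prod_add]
    by_cases hM : ∀ s ∈ M, ¬ a s
    · rw [if_pos ⟨hM, hE⟩, Finset.prod_eq_one]
      intro s hs
      rw [if_neg (hM s hs)]
      norm_num
    · rw [if_neg (fun hc => hM hc.1)]
      push Not at hM
      obtain ⟨s, hs, hs'⟩ := hM
      rw [Finset.prod_eq_zero hs]
      rw [if_pos hs']
      norm_num
  · rw [if_neg (fun hc => hE hc.2)]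
    refine Finset.sum_eq_zero fun B _ => ?_
    rw [if_neg, mul_zero]
    intro hc
    exact hE fun s hs => hc s (Finset.mem_union_left _ hs)

/-- the kernel on the diagonal -/
theorem kME_diag (u : Fin 3 → ℂ) (h : Fin 3 → ℝ) (M E : Finset (Fin 3))
    {t : ℝ} (ht : 0 < t) (x : ℂ) :
    kME u h M E t x x = G t 0 * (PP (SS u h M E t x)).toReal := by
  classical
  have hm : ∀ B : Finset (Fin 3), MeasurableSet (H8.AE (Dm u h B) t x) := fun B =>
    H8.measurableSet_AE (isOpen_Dm u h B) t x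
  have hS : MeasurableSet (SS u h M E t x) :=
    measurable_prodMk_left (x := x) (measurableSet_SS2 u h M E t)
  have hint : ∀ S : Set Sp, MeasurableSet S → (PP S).toReal = ∫ ω, (if ω ∈ S then (1 : ℝ) else 0) ∂PP := by
    intro S hS
    have e : (fun ω => if ω ∈ S then (1 : ℝ) else 0) = S.indicator fun _ => (1 : ℝ) := by
      ext ω
      simp [Set.indicator_apply]
    rw [e, integral_indicator hS]
    simp [Measure.real]
  have hI : ∀ S : Set Sp, MeasurableSet S → Integrable (fun ω => if ω ∈ S then (1 : ℝ) else 0) PP := by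
    intro S hS
    have e : (fun ω => if ω ∈ S then (1 : ℝ) else 0) = S.indicator fun _ => (1 : ℝ) := by
      ext ω
      simp [Set.indicator_apply]
    rw [e]
    exact (integrable_const _).indicator hS
  unfold kME pB
  have h1 : ∀ B ∈ M.powerset, (-1 : ℝ) ^ B.card * pD (Dm u h (E ∪ B)) t x x
      = G t 0 * ∫ ω, (-1 : ℝ) ^ B.card * (if ω ∈ H8.AE (Dm u h (E ∪ B)) t x then (1 : ℝ) else 0) ∂PP := by
    intro B _
    rw [H8.pD_diag_all (isOpen_Dm u h _) ht, hint _ (hm _), integral_const_mul]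
    ring
  rw [Finset.sum_congr rfl h1, ← Finset.mul_sum, hint _ hS, ← integral_finsetSum]
  · congr 2
    ext ω
    have h2 := incl_excl (fun s => ω ∈ H8.AE (Hs u h s) t x) M E
    simp only [mem_AE_Dm, SS, Set.mem_ofPred_eq]
    refine h2.trans ?_
    rcases em ((∀ s ∈ M, ω ∉ H8.AE (Hs u h s) t x) ∧ ∀ s ∈ E, ω ∈ H8.AE (Hs u h s) t x) with hc | hc
    · exact (if_pos hc).trans (if_pos hc).symm
    · exact (if_neg hc).trans (if_neg hc).symm
  · intro B _
    exact (hI _ (hm _)).const_mul _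

/-- visits in terms of the support function -/
theorem mem_AE_iff {u : Fin 3 → ℂ} {h : Fin 3 → ℝ} {t : ℝ} (ht : 0 < t) {s : Fin 3} {x : ℂ} {ω : Sp}
    {R : ℝ} (hR : ∀ m k, k ≤ 2 ^ m → ‖loop m ω k‖ ≤ R)
    (hx : ip (u s) x ≠ h s - Real.sqrt t * hs ω (u s)) :
    ω ∈ H8.AE (Hs u h s) t x ↔ ip (u s) x + Real.sqrt t * hs ω (u s) < h s := by
  have hst : 0 < Real.sqrt t := Real.sqrt_pos.2 ht
  have hip : ∀ m k, ip (u s) (x + (Real.sqrt t : ℂ) * loop m ω k)
      = ip (u s) x + Real.sqrt t * ip (u s) (loop m ω k) := by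
    intro m k
    unfold ip
    simp only [Complex.add_re, Complex.add_im, Complex.mul_re, Complex.mul_im, Complex.ofReal_re,
      Complex.ofReal_im]
    ring
  constructor
  · intro hω
    have h1 : ∀ m k : ℕ, k ≤ 2 ^ m → ip (u s) x + Real.sqrt t * ip (u s) (loop m ω k) < h s := by
      intro m k hk
      have := hω m k hk
      unfold Hs at this
      rwa [Set.mem_ofPred_eq, hip] at this
    have h0 : 0 ≤ (h s - ip (u s) x) / Real.sqrt t := by
      have := h1 0 0 (by norm_num)
      rw [loop_stmt.2.1] at this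
      have e : ip (u s) 0 = 0 := by simp [ip]
      rw [e] at this
      apply div_nonneg _ hst.le
      linarith
    have h2 : hs ω (u s) ≤ (h s - ip (u s) x) / Real.sqrt t := by
      refine H8.hs_le_of h0 fun m k hk => ?_
      rw [le_div_iff₀ hst]
      have := h1 m k hk
      linarith
    rw [le_div_iff₀ hst] at h2
    refine lt_of_le_of_ne (by linarith) fun hc => hx (by linarith)
  · intro hlt m k hk
    unfold Hs
    rw [Set.mem_ofPred_eq, hip]
    have h3 := mul_le_mul_of_nonneg_left (H8.ip_loop_le hR (u s) hk) hst.le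
    linarith

theorem vex : VexStatement := by
  intro u h M E t hu hME ht hint
  have hG : G t 0 = 1 / (4 * Real.pi * t) := by
    unfold G
    simp
  have hGpos : 0 < G t 0 := by rw [hG]; have := Real.pi_pos; positivity
  have hm2 := measurableSet_SS2 u h M E t
  have hmeas : AEMeasurable (fun x => PP (SS u h M E t x)) volume :=
    (measurable_measure_prodMk_left hm2).aemeasurable
  have hmeas2 : AEMeasurable (fun ω => volume {x : ℂ | ω ∈ SS u h M E t x}) PP :=
    (measurable_measure_prodMk_right hm2).aemeasurable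
  have hfun : (fun x => kME u h M E t x x) = fun x => G t 0 * (PP (SS u h M E t x)).toReal :=
    funext fun x => kME_diag u h M E ht x
  have hlin : ∫⁻ x, PP (SS u h M E t x) = ∫⁻ ω, volume {x : ℂ | ω ∈ SS u h M E t x} ∂PP := by
    have a1 := Measure.prod_apply (μ := (volume : Measure ℂ)) (ν := PP) hm2
    have a2 := Measure.prod_apply_symm (μ := (volume : Measure ℂ)) (ν := PP) hm2
    rw [a1] at a2
    exact a2
  have hfin : ∫⁻ x, PP (SS u h M E t x) ≠ ⊤ := by
    rw [hfun] at hint
    have h1 : Integrable fun x => (PP (SS u h M E t x)).toReal := by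
      have := hint.const_mul (G t 0)⁻¹
      refine this.congr (Eventually.of_forall fun x => ?_)
      simp only
      rw [← mul_assoc, inv_mul_cancel₀ hGpos.ne', one_mul]
    have h2 := h1.2
    rw [hasFiniteIntegral_iff_ofReal (Eventually.of_forall fun x => ENNReal.toReal_nonneg)] at h2
    have h3 : ∀ x, ENNReal.ofReal (PP (SS u h M E t x)).toReal = PP (SS u h M E t x) := fun x =>
      ENNReal.ofReal_toReal (measure_ne_top _ _)
    simp only [h3] at h2
    exact h2.ne
  unfold VM
  rw [hfun, integral_const_mul]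
  congr 1
  rw [integral_toReal hmeas (Eventually.of_forall fun x => measure_lt_top _ _), hlin,
    ← integral_toReal hmeas2]
  · refine integral_congr_ae ?_
    filter_upwards [H41.ae_bdd osc_stmt] with ω hω
    obtain ⟨R, hR⟩ := hω
    congr 1
    apply measure_congr
    have hnull : ∀ᵐ x : ℂ, ∀ s : Fin 3, ip (u s) x ≠ h s - Real.sqrt t * hs ω (u s) := by
      rw [ae_all_iff]
      intro s
      rw [ae_iff]
      simp only [not_not]
      exact H60.volume_line (u s) (hu s) _
    filter_upwards [hnull] with x hx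
    apply propext
    show (∀ s ∈ M, ω ∉ H8.AE (Hs u h s) t x) ∧ (∀ s ∈ E, ω ∈ H8.AE (Hs u h s) t x) ↔
      (∀ s ∈ M, h s < ip (u s) x + Real.sqrt t * hs ω (u s)) ∧
        ∀ s ∈ E, ip (u s) x + Real.sqrt t * hs ω (u s) < h s
    refine and_congr (forall₂_congr fun s _ => ?_) (forall₂_congr fun s _ => ?_)
    · rw [mem_AE_iff ht hR (hx s), not_lt]
      refine ⟨fun h1 => lt_of_le_of_ne h1 fun hc => hx s (by linarith), fun h1 => h1.le⟩
    · exact mem_AE_iff ht hR (hx s)
  · refine ae_lt_top' hmeas2 ?_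
    rw [← hlin]
    exact hfin

end Pool.Agent.H60K.H25
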